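import Pool.Agent.H27Cheb.Main

/-!
# Executable integer checks for the certificate
-/

open Polynomial

namespace H27Cheb

/-- polynomial with natural coefficients given by a list (low degree first) -/
noncomputable def ofL : List ℕ → ℤ[X]
  | [] => 0
  | c :: l => C (c : ℤ) + X * ofL l

/-- homogeneous evaluation: `∑ c_i Y^i D^(d-i)` -/
def evH (D Y : ℕ) : ℕ → List ℕ → ℕ
  | _, [] => 0
  | d, c :: l => c * D ^ d + Y * evH D Y (d - 1) l

theorem evH_eq (D Y : ℕ) (hD : D ≠ 0) : ∀ (l : List ℕ) (d : ℕ), l.length ≤ d + 1 →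
    (evH D Y d l : ℝ) = (D : ℝ) ^ d * ((ofL l).map (algebraMap ℤ ℝ)).eval ((Y : ℝ) / D) := by
  intro l
  induction l with
  | nil => intro d _; simp [evH, ofL]
  | cons c l ih =>
    intro d hd
    have hD' : (D : ℝ) ≠ 0 := by exact_mod_cast hD
    rcases Nat.eq_zero_or_pos d with h | h
    · subst h
      have hl : l = [] := by
        have : l.length ≤ 0 := by simpa using hd
        exact List.length_eq_zero_iff.mp (by omega)
      subst hl
      simp [evH, ofL]
    · obtain ⟨e, rfl⟩ := Nat.exists_eq_succ_of_ne_zero h.ne'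
      have := ih e (by simp at hd; omega)
      simp only [evH, Nat.succ_eq_add_one, Nat.add_sub_cancel, ofL]
      push_cast
      rw [this]
      simp only [Polynomial.map_add, Polynomial.map_mul, Polynomial.map_X, eval_add, eval_mul,
        eval_X, Polynomial.map_C, eval_C]
      simp only [eq_intCast, Int.cast_natCast]
      field_simp
      ring

/-- a factor of the certificate: `F = ofL E - ofL O`, degree `d`, multiplicity `m` -/
structure Fac where
  /-- coefficients with positive sign -/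
  E : List ℕ
  /-- coefficients with negative sign -/
  O : List ℕ
  /-- degree -/
  d : ℕ
  /-- multiplicity -/
  m : ℕ

namespace Fac

/-- the polynomial of a factor -/
noncomputable def poly (f : Fac) : ℤ[X] := ofL f.E - ofL f.O

/-- `|F(Y/D)| D^d` -/
def absF (f : Fac) (D Y : ℕ) : ℕ :=
  (evH D Y f.d f.E - evH D Y f.d f.O) + (evH D Y f.d f.O - evH D Y f.d f.E)

end Fac

theorem natAbsDiff (a b : ℕ) : (((a - b) + (b - a) : ℕ) : ℝ) = |(a : ℝ) - b| := by
  rcases le_total a b with h | h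
  · rw [Nat.sub_eq_zero_of_le h, zero_add, Nat.cast_sub h, abs_sub_comm, abs_of_nonneg]
    exact sub_nonneg.mpr (by exact_mod_cast h)
  · rw [Nat.sub_eq_zero_of_le h, add_zero, Nat.cast_sub h, abs_of_nonneg]
    exact sub_nonneg.mpr (by exact_mod_cast h)

theorem Fac.absF_eq (f : Fac) (D Y : ℕ) (hD : D ≠ 0) (hE : f.E.length ≤ f.d + 1)
    (hO : f.O.length ≤ f.d + 1) :
    (f.absF D Y : ℝ) = (D : ℝ) ^ f.d * |(f.poly.map (algebraMap ℤ ℝ)).eval ((Y : ℝ) / D)| := by
  unfold Fac.absF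
  rw [natAbsDiff, evH_eq D Y hD f.E f.d hE, evH_eq D Y hD f.O f.d hO, ← mul_sub, abs_mul,
    abs_of_nonneg (by positivity : (0 : ℝ) ≤ (D : ℝ) ^ f.d)]
  simp [Fac.poly]

/-- `∏_i |Y - R_i|` -/
def prodDiff (Y : ℕ) : List ℕ → ℕ
  | [] => 1
  | r :: l => ((Y - r) + (r - Y)) * prodDiff Y l

/-- `∏_j |F_j(Y)|^{m_j}` -/
def prodF (D Y : ℕ) : List Fac → ℕ
  | [] => 1
  | f :: l => f.absF D Y ^ f.m * prodF D Y l

/-- `∏_i |F(R_i)|` -/
def prodR (D : ℕ) (f : Fac) : List ℕ → ℕ
  | [] => 1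
  | r :: l => f.absF D r * prodR D f l

/-- strict interlacing `Y_0 < R_0 < Y_1 < R_1 < ... < Y_N` -/
def interlace : List ℕ → List ℕ → Bool
  | [_], [] => true
  | y :: y' :: ys, r :: rs => Nat.blt y r && Nat.blt r y' && interlace (y' :: ys) rs
  | _, _ => false

theorem interlace_spec : ∀ (rs ys : List ℕ), interlace ys rs = true →
    ys.length = rs.length + 1 ∧ ∀ k < rs.length, ys.getD k 0 < rs.getD k 0 ∧
      rs.getD k 0 < ys.getD (k + 1) 0 := by
  intro rs
  induction rs with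
  | nil =>
    intro ys h
    match ys with
    | [] => simp [interlace] at h
    | [y] => simp
    | y :: y' :: ys => simp [interlace] at h
  | cons r rs ih =>
    intro ys h
    match ys with
    | [] => simp [interlace] at h
    | [y] => simp [interlace] at h
    | y :: y' :: ys =>
      simp only [interlace, Bool.and_eq_true, Nat.blt_eq] at h
      obtain ⟨⟨h1, h2⟩, h3⟩ := h
      obtain ⟨h4, h5⟩ := ih _ h3
      refine ⟨by simpa using h4, ?_⟩
      intro k hk
      rcases Nat.eq_zero_or_pos k with h | h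
      · subst h; simpa using ⟨h1, h2⟩
      · obtain ⟨k', rfl⟩ := Nat.exists_eq_succ_of_ne_zero h.ne'
        have := h5 k' (by simpa using hk)
        simpa using this

theorem prodDiff_eq (Y : ℕ) : ∀ R : List ℕ,
    (prodDiff Y R : ℝ) = ∏ i ∈ Finset.range R.length, |(Y : ℝ) - (R.getD i 0 : ℕ)| := by
  intro R
  induction R with
  | nil => simp [prodDiff]
  | cons r l ih =>
    rw [prodDiff, List.length_cons, Finset.prod_range_succ']
    push_cast [natAbsDiff]
    rw [ih, mul_comm]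
    congr 1
    · rw [← natAbsDiff]; push_cast; simp

theorem prodR_eq (D : ℕ) (f : Fac) : ∀ R : List ℕ,
    (prodR D f R : ℝ) = ∏ i ∈ Finset.range R.length, (f.absF D (R.getD i 0) : ℝ) := by
  intro R
  induction R with
  | nil => simp [prodR]
  | cons r l ih =>
    rw [prodR, List.length_cons, Finset.prod_range_succ']
    push_cast
    rw [ih, mul_comm]
    simp

theorem prodF_eq (D Y : ℕ) : ∀ L : List Fac,
    (prodF D Y L : ℝ) = ∏ j : Fin L.length, ((L.get j).absF D Y : ℝ) ^ (L.get j).m := by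
  intro L
  induction L with
  | nil => simp [prodF]
  | cons f l ih =>
    rw [prodF]
    push_cast
    rw [ih]
    exact (Fin.prod_univ_succ (n := l.length)
      (fun j : Fin (l.length + 1) => (((f :: l).get j).absF D Y : ℝ) ^ ((f :: l).get j).m)).symm

/-- product of powers of leading coefficients -/
def prodLead : List (ℕ × ℕ) → ℕ
  | [] => 1
  | (c, m) :: l => c ^ m * prodLead l

/-- sum of `m_j d_j` -/
def sumDeg : List Fac → ℕ
  | [] => 0
  | f :: l => f.m * f.d + sumDeg l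

theorem sumDeg_eq : ∀ L : List Fac, sumDeg L = ∑ j : Fin L.length, (L.get j).m * (L.get j).d := by
  intro L
  induction L with
  | nil => simp [sumDeg]
  | cons f l ih =>
    rw [sumDeg, ih]
    exact (Fin.sum_univ_succ (n := l.length)
      (fun j : Fin (l.length + 1) => ((f :: l).get j).m * ((f :: l).get j).d)).symm

/-- leading coefficient (absolute value) from the lists -/
def Fac.lead (f : Fac) : ℕ := f.E.getD f.d 0 + f.O.getD f.d 0

/-- `∏ lead^m` -/
def prodL : List Fac → ℕ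
  | [] => 1
  | f :: l => f.lead ^ f.m * prodL l

theorem prodL_eq : ∀ L : List Fac,
    (prodL L : ℝ) = ∏ j : Fin L.length, ((L.get j).lead : ℝ) ^ (L.get j).m := by
  intro L
  induction L with
  | nil => simp [prodL]
  | cons f l ih =>
    rw [prodL]
    push_cast
    rw [ih]
    exact (Fin.prod_univ_succ (n := l.length)
      (fun j : Fin (l.length + 1) => (((f :: l).get j).lead : ℝ) ^ ((f :: l).get j).m)).symm

/-- basic shape of a factor -/
def Fac.ok (f : Fac) : Bool :=
  Nat.ble f.E.length (f.d + 1) && Nat.ble f.O.length (f.d + 1) && Nat.blt 0 f.d && Nat.blt 0 f.m &&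
  ((Nat.beq (f.E.getD f.d 0) 0 && Nat.blt 0 (f.O.getD f.d 0)) ||
    (Nat.beq (f.O.getD f.d 0) 0 && Nat.blt 0 (f.E.getD f.d 0)))

theorem coeff_ofL : ∀ (l : List ℕ) (k : ℕ), (ofL l).coeff k = (l.getD k 0 : ℤ) := by
  intro l
  induction l with
  | nil => intro k; simp [ofL]
  | cons c l ih =>
    intro k
    rw [ofL, coeff_add]
    rcases k with _ | k
    · simp
    · rw [coeff_X_mul, ih]
      simp

theorem Fac.coeff_poly (f : Fac) (k : ℕ) :
    f.poly.coeff k = (f.E.getD k 0 : ℤ) - (f.O.getD k 0 : ℤ) := by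
  rw [Fac.poly, coeff_sub, coeff_ofL, coeff_ofL]

theorem Fac.natDegree_poly {f : Fac} (h : f.ok = true) : f.poly.natDegree = f.d := by
  unfold Fac.ok at h
  simp only [Bool.and_eq_true, Bool.or_eq_true, Nat.ble_eq, Nat.blt_eq] at h
  obtain ⟨⟨⟨⟨h1, h2⟩, h3⟩, h4⟩, h5⟩ := h
  refine natDegree_eq_of_le_of_coeff_ne_zero ?_ ?_
  · rw [natDegree_le_iff_coeff_eq_zero]
    intro k hk
    rw [Fac.coeff_poly, List.getD_eq_default _ _ (by omega), List.getD_eq_default _ _ (by omega)]
    simp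
  · rw [Fac.coeff_poly]
    rcases h5 with ⟨h6, h7⟩ | ⟨h6, h7⟩
    · rw [Nat.eq_of_beq_eq_true h6]; push_cast; omega
    · rw [Nat.eq_of_beq_eq_true h6]; push_cast; omega

theorem Fac.abs_lead {f : Fac} (h : f.ok = true) : |(f.poly.leadingCoeff : ℝ)| = (f.lead : ℝ) := by
  rw [leadingCoeff, Fac.natDegree_poly h, Fac.coeff_poly, Fac.lead]
  unfold Fac.ok at h
  simp only [Bool.and_eq_true, Bool.or_eq_true, Nat.ble_eq, Nat.blt_eq] at h
  obtain ⟨⟨⟨⟨h1, h2⟩, h3⟩, h4⟩, h5⟩ := h
  rcases h5 with ⟨h6, h7⟩ | ⟨h6, h7⟩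
  · rw [Nat.eq_of_beq_eq_true h6]; push_cast; simp
  · rw [Nat.eq_of_beq_eq_true h6]; push_cast; simp

/-- a full certificate -/
structure Cert where
  /-- common denominator -/
  D : ℕ
  /-- leading coefficient of `A` -/
  a : ℕ
  /-- factors of `B` -/
  L : List Fac
  /-- numerators of the roots of `A` -/
  R : List ℕ
  /-- numerators of the nodes -/
  Y : List ℕ
  /-- the bound is `(cn/cd)^n` for `[0,1]` -/
  cn : ℕ
  /-- denominator of the bound -/
  cd : ℕ

namespace Cert

/-- the degree -/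
def N (c : Cert) : ℕ := c.R.length

/-- check everything except the domination inequality -/
def check1 (c : Cert) : Bool :=
  Nat.blt 0 c.D && Nat.blt 0 c.cd && Nat.blt 0 c.a && Nat.blt 0 c.R.length &&
  c.L.all Fac.ok && Nat.beq (sumDeg c.L) c.R.length &&
  Nat.blt (prodL c.L) c.a && interlace c.Y c.R &&
  Nat.ble (4 * c.Y.getD c.R.length 0) c.D &&
  Nat.ble (2 * (c.a + prodL c.L) * c.cn ^ (2 * c.R.length)) (c.cd ^ (2 * c.R.length))

/-- the resultant conditions -/
def check2 (c : Cert) : Bool :=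
  c.L.all fun f => Nat.ble (c.D ^ (f.d * c.R.length)) ((2 * c.a) ^ f.d * prodR c.D f c.R)

/-- the domination inequality at the nodes -/
def check3 (c : Cert) : Bool :=
  c.Y.all fun y => Nat.blt (prodF c.D y c.L) (c.a * prodDiff y c.R)

end Cert

/-- **Soundness of the certificate check.** -/
theorem Cert.sound (c : Cert) (h1 : c.check1 = true) (h2 : c.check2 = true) (h3 : c.check3 = true)
    (hirr : ∀ f ∈ c.L, Irreducible f.poly) (P : ℤ[X]) (hP : P ≠ 0) (M : ℝ)
    (hM : ∀ x : ℝ, 0 ≤ x → x ≤ 1 / 4 → |(P.map (Int.castRingHom ℝ)).eval x| ≤ M) :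
    (((c.cn : ℝ) / c.cd) ^ 2) ^ P.natDegree ≤ M := by
  unfold Cert.check1 at h1
  simp only [Bool.and_eq_true, Nat.ble_eq, Nat.blt_eq, List.all_eq_true] at h1
  obtain ⟨⟨⟨⟨⟨⟨⟨⟨⟨hD, hcd⟩, ha⟩, hN⟩, hok⟩, hsum⟩, hlead⟩, hint⟩, hY⟩, hfin⟩ := h1
  obtain ⟨hlen, hord⟩ := interlace_spec _ _ hint
  replace hsum := Nat.eq_of_beq_eq_true hsum
  unfold Cert.check2 at h2
  simp only [Nat.ble_eq, List.all_eq_true] at h2
  unfold Cert.check3 at h3
  simp only [Nat.blt_eq, List.all_eq_true] at h3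
  have hD' : (0 : ℝ) < c.D := by exact_mod_cast hD
  have hD0 : c.D ≠ 0 := by omega
  have hcd' : (0 : ℝ) < c.cd := by exact_mod_cast hcd
  have ha' : (0 : ℝ) < c.a := by exact_mod_cast ha
  set N := c.R.length with hNdef
  let ρ : ℕ → ℝ := fun i => (c.R.getD i 0 : ℝ) / c.D
  let y : ℕ → ℝ := fun i => (c.Y.getD i 0 : ℝ) / c.D
  let F : Fin c.L.length → ℤ[X] := fun j => (c.L.get j).poly
  let m : Fin c.L.length → ℕ := fun j => (c.L.get j).m
  have hokj : ∀ j : Fin c.L.length, (c.L.get j).ok = true := fun j => hok _ (List.get_mem _ _)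
  have hEO : ∀ j : Fin c.L.length, (c.L.get j).E.length ≤ (c.L.get j).d + 1 ∧
      (c.L.get j).O.length ≤ (c.L.get j).d + 1 ∧ 0 < (c.L.get j).d ∧ 0 < (c.L.get j).m := by
    intro j
    have h := hokj j
    unfold Fac.ok at h
    simp only [Bool.and_eq_true, Bool.or_eq_true, Nat.ble_eq, Nat.blt_eq] at h
    exact ⟨h.1.1.1.1, h.1.1.1.2, h.1.1.2, h.1.2⟩
  have hd : ∀ j, (F j).natDegree = (c.L.get j).d := fun j => Fac.natDegree_poly (hokj j)
  have hsum' : ∑ j, m j * (F j).natDegree = N := by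
    rw [← hsum, sumDeg_eq]
    exact Finset.sum_congr rfl fun j _ => by rw [hd]
  have hleadprod : ∏ j, |((F j).leadingCoeff : ℝ)| ^ m j = (prodL c.L : ℝ) := by
    rw [prodL_eq]
    exact Finset.prod_congr rfl fun j _ => by rw [Fac.abs_lead (hokj j)]
  have hκ : (0 : ℝ) ≤ ((c.cn : ℝ) / c.cd) ^ 2 := by positivity
  refine core (ι := Fin c.L.length) (F := F) (m := m) (a := c.a) (N := N) (ρ := ρ) (y := y)
    (by omega) ha' hκ (fun j => hirr _ (List.get_mem _ _)) (fun j => by rw [hd]; have := hEO j; omega)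
    (fun j => by have := hEO j; simp only [m]; omega) hsum'.le ?_ ?_ ?_ ?_ ?_ P hP M ?_
  · rw [hleadprod]; exact_mod_cast hlead
  · intro k hk
    have := hord k hk
    constructor
    · exact div_lt_div_of_pos_right (by exact_mod_cast this.1) hD'
    · exact div_lt_div_of_pos_right (by exact_mod_cast this.2) hD'
  · intro k hk
    have hmem : c.Y.getD k 0 ∈ c.Y := by
      rw [List.getD_eq_getElem _ _ (by omega)]
      exact List.getElem_mem _
    have h4 := h3 _ hmem
    have h5 : (prodF c.D (c.Y.getD k 0) c.L : ℝ) < c.a * prodDiff (c.Y.getD k 0) c.R := by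
      exact_mod_cast h4
    rw [prodF_eq, prodDiff_eq] at h5
    have e1 : ∏ j : Fin c.L.length, ((c.L.get j).absF c.D (c.Y.getD k 0) : ℝ) ^ (c.L.get j).m =
        (c.D : ℝ) ^ N * ∏ j, |((F j).map (algebraMap ℤ ℝ)).eval (y k)| ^ m j := by
      rw [← hsum', ← Finset.prod_pow_eq_pow_sum, ← Finset.prod_mul_distrib]
      refine Finset.prod_congr rfl fun j _ => ?_
      rw [Fac.absF_eq _ _ _ hD0 (hEO j).1 (hEO j).2.1, mul_pow, ← pow_mul, hd, mul_comm (m j)]
    have e2 : ∏ i ∈ Finset.range c.R.length, |((c.Y.getD k 0 : ℕ) : ℝ) - (c.R.getD i 0 : ℕ)| =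
        (c.D : ℝ) ^ N * ∏ i ∈ Finset.range N, |y k - ρ i| := by
      rw [← hNdef]
      have : ∀ i ∈ Finset.range N, |((c.Y.getD k 0 : ℕ) : ℝ) - (c.R.getD i 0 : ℕ)| =
          c.D * |y k - ρ i| := by
        intro i _
        have h6 : ((c.Y.getD k 0 : ℕ) : ℝ) - (c.R.getD i 0 : ℕ) = c.D * (y k - ρ i) := by
          simp only [y, ρ]; field_simp
        rw [h6, abs_mul, abs_of_pos hD']
      rw [Finset.prod_congr rfl this, Finset.prod_mul_distrib, Finset.prod_const, Finset.card_range]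
    rw [e1, e2] at h5
    have hDN : (0 : ℝ) < (c.D : ℝ) ^ N := by positivity
    have h7 : (c.D : ℝ) ^ N * ∏ j, |((F j).map (algebraMap ℤ ℝ)).eval (y k)| ^ m j <
        (c.D : ℝ) ^ N * (c.a * ∏ i ∈ Finset.range N, |y k - ρ i|) := by
      calc _ < _ := h5
        _ = _ := by ring
    exact lt_of_mul_lt_mul_left h7 hDN.le
  · intro j
    have h4 := h2 _ (List.get_mem c.L j)
    have h5 : ((c.D : ℝ) ^ ((c.L.get j).d * N)) ≤ (2 * c.a) ^ (c.L.get j).d *
        (prodR c.D (c.L.get j) c.R : ℝ) := by exact_mod_cast h4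
    rw [prodR_eq] at h5
    have e1 : ∏ i ∈ Finset.range c.R.length, ((c.L.get j).absF c.D (c.R.getD i 0) : ℝ) =
        (c.D : ℝ) ^ ((c.L.get j).d * N) *
          ∏ i ∈ Finset.range N, |((F j).map (algebraMap ℤ ℝ)).eval (ρ i)| := by
      rw [← hNdef, pow_mul]
      have : ∀ i ∈ Finset.range N, ((c.L.get j).absF c.D (c.R.getD i 0) : ℝ) =
          (c.D : ℝ) ^ (c.L.get j).d * |((F j).map (algebraMap ℤ ℝ)).eval (ρ i)| := by
        intro i _
        rw [Fac.absF_eq _ _ _ hD0 (hEO j).1 (hEO j).2.1]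
      rw [Finset.prod_congr rfl this, Finset.prod_mul_distrib, Finset.prod_const, Finset.card_range]
    rw [e1] at h5
    have hDN : (0 : ℝ) < (c.D : ℝ) ^ ((c.L.get j).d * N) := by positivity
    have h7 : (c.D : ℝ) ^ ((c.L.get j).d * N) * 1 ≤ (c.D : ℝ) ^ ((c.L.get j).d * N) *
        ((2 * c.a) ^ (F j).natDegree *
          ∏ i ∈ Finset.range N, |((F j).map (algebraMap ℤ ℝ)).eval (ρ i)|) := by
      rw [hd]
      calc _ = _ := by ring
        _ ≤ _ := h5
        _ = _ := by ring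
    exact le_of_mul_le_mul_left h7 hDN
  · rw [hleadprod]
    have h4 : (2 * ((c.a : ℝ) + prodL c.L) * (c.cn : ℝ) ^ (2 * N)) ≤ (c.cd : ℝ) ^ (2 * N) := by
      exact_mod_cast hfin
    rw [← pow_mul, div_pow, mul_div_assoc']
    exact (div_le_one (by positivity)).mpr h4
  · intro x hx0 hx1
    have h5 : (0 : ℝ) ≤ y 0 := by positivity
    have h6 : y N ≤ 1 / 4 := by
      have : (4 * (c.Y.getD N 0) : ℝ) ≤ c.D := by exact_mod_cast hY
      simp only [y]
      rw [div_le_div_iff₀ hD' (by norm_num)]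
      linarith
    exact hM x (h5.trans hx0) (hx1.trans h6)

end H27Cheb
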