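import Mathlib

/-!
# Lower bounds for sup norms of integer polynomials from a rational-function certificate

`A = a ∏ (X - ρ i)` and `B = ∏ F j ^ m j` are real polynomials such that `A` alternates and dominates
`|B|` at `N + 1` nodes.  Then all `N` roots of `A - t B` are real for `|t| ≤ 1`, and comparing the
values of an integer polynomial `P` at these roots with resultants gives a lower bound for `‖P‖`.
-/

open Polynomial

namespace H27Cheb

theorem norm_multiset_prod' (s : Multiset ℂ) : ‖s.prod‖ = (s.map fun x => ‖x‖).prod := by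
  induction s using Multiset.induction_on with
  | empty => simp
  | cons a s ih => simp [ih]

/-- roots of `A - t B` between consecutive nodes -/
theorem exists_root_between {A B : ℝ[X]} {t u v : ℝ} (huv : u < v) (ht : |t| ≤ 1)
    (hu : |B.eval u| < |A.eval u|) (hv : |B.eval v| < |A.eval v|)
    (hsign : A.eval u * A.eval v < 0) :
    ∃ x, u < x ∧ x < v ∧ (A - C t * B).eval x = 0 := by
  have key : ∀ x : ℝ, |B.eval x| < |A.eval x| → 0 < (A - C t * B).eval x * A.eval x := by
    intro x hx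
    have h1 : |t * B.eval x * A.eval x| < A.eval x * A.eval x := by
      rw [abs_mul, abs_mul]
      have hA : 0 < |A.eval x| := lt_of_le_of_lt (abs_nonneg _) hx
      have h2 : |t| * |B.eval x| < |A.eval x| :=
        lt_of_le_of_lt (mul_le_of_le_one_left (abs_nonneg _) ht) hx
      calc |t| * |B.eval x| * |A.eval x| < |A.eval x| * |A.eval x| :=
            mul_lt_mul_of_pos_right h2 hA
        _ = A.eval x * A.eval x := abs_mul_abs_self _
    have h3 : (A - C t * B).eval x * A.eval x = A.eval x * A.eval x - t * B.eval x * A.eval x := by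
      simp only [eval_sub, eval_mul, eval_C]; ring
    rw [h3]
    have := (abs_lt.mp h1).2
    linarith
  have k1 := key u hu
  have k2 := key v hv
  have hneg : (A - C t * B).eval u * (A - C t * B).eval v < 0 := by
    by_contra hcon
    push Not at hcon
    have h4 : 0 < ((A - C t * B).eval u * A.eval u) * ((A - C t * B).eval v * A.eval v) :=
      mul_pos k1 k2
    have h5 : ((A - C t * B).eval u * A.eval u) * ((A - C t * B).eval v * A.eval v) =
        ((A - C t * B).eval u * (A - C t * B).eval v) * (A.eval u * A.eval v) := by ring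
    rw [h5] at h4
    have h6 : ((A - C t * B).eval u * (A - C t * B).eval v) * (A.eval u * A.eval v) ≤ 0 :=
      mul_nonpos_of_nonneg_of_nonpos hcon hsign.le
    linarith
  have hcont : ContinuousOn (fun x => (A - C t * B).eval x) (Set.Icc u v) :=
    (A - C t * B).continuous.continuousOn
  rcases mul_neg_iff.mp hneg with ⟨h1, h2⟩ | ⟨h1, h2⟩
  · have := intermediate_value_Ioo' huv.le hcont ⟨h2, h1⟩
    obtain ⟨x, hx, hx0⟩ := this
    exact ⟨x, hx.1, hx.2, hx0⟩
  · have := intermediate_value_Ioo huv.le hcont ⟨h1, h2⟩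
    obtain ⟨x, hx, hx0⟩ := this
    exact ⟨x, hx.1, hx.2, hx0⟩

/-- a polynomial of degree at most `N` with `N` distinct roots factors completely -/
theorem eq_prod_of_roots {K : Type*} [Field K] {G : K[X]} {N : ℕ} (hdeg : G.natDegree ≤ N)
    (η : ℕ → K) (hinj : Set.InjOn η (Finset.range N)) (hroot : ∀ k < N, G.eval (η k) = 0) :
    G = C (G.coeff N) * ∏ k ∈ Finset.range N, (X - C (η k)) := by
  classical
  have hmonic : (∏ k ∈ Finset.range N, (X - C (η k))).Monic := monic_prod_X_sub_C _ _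
  have hnd : (∏ k ∈ Finset.range N, (X - C (η k))).natDegree = N := by
    rw [natDegree_prod_of_monic _ _ (fun i _ => monic_X_sub_C _)]
    simp
  rw [← sub_eq_zero]
  set H := G - C (G.coeff N) * ∏ k ∈ Finset.range N, (X - C (η k)) with hH
  have hdegH : H.degree < ((Finset.range N).image η).card := by
    have hcard : ((Finset.range N).image η).card = N := by
      rw [Finset.card_image_of_injOn hinj, Finset.card_range]
    rw [hcard, degree_lt_iff_coeff_zero]
    intro k hk
    rcases eq_or_lt_of_le hk with h | h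
    · rw [← h, hH, coeff_sub, coeff_C_mul]
      have : (∏ k ∈ Finset.range N, (X - C (η k))).coeff N = 1 := by
        have := hmonic.coeff_natDegree
        rwa [hnd] at this
      rw [this, mul_one, sub_self]
    · have e1 : G.coeff k = 0 := coeff_eq_zero_of_natDegree_lt (lt_of_le_of_lt hdeg h)
      have e2 : (∏ k ∈ Finset.range N, (X - C (η k))).coeff k = 0 :=
        coeff_eq_zero_of_natDegree_lt (by rw [hnd]; exact h)
      rw [hH, coeff_sub, coeff_C_mul, e1, e2, mul_zero, sub_zero]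
  refine Polynomial.eq_zero_of_degree_lt_of_eval_finset_eq_zero _ hdegH ?_
  intro x hx
  obtain ⟨k, hk, rfl⟩ := Finset.mem_image.mp hx
  rw [hH, eval_sub, hroot k (Finset.mem_range.mp hk), eval_mul, eval_prod,
    Finset.prod_eq_zero hk (by simp), mul_zero, sub_zero]

/-- the pointwise comparison at the roots of `A - t B` -/
theorem prod_roots_le {A B : ℝ[X]} {N : ℕ} {y : ℕ → ℝ} {t M : ℝ} (ht : |t| ≤ 1)
    (hA : A.natDegree ≤ N) (hB : B.natDegree ≤ N) (hlead : |B.coeff N| < A.coeff N)
    (hmono : ∀ k < N, y k < y (k + 1))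
    (hdom : ∀ k ≤ N, |B.eval (y k)| < |A.eval (y k)|)
    (hsign : ∀ k < N, A.eval (y k) * A.eval (y (k + 1)) < 0)
    (P : ℂ[X]) (hM : ∀ x : ℝ, y 0 ≤ x → x ≤ y N → ‖P.eval (x : ℂ)‖ ≤ M) :
    ‖P.leadingCoeff‖ ^ N * (P.roots.map fun α => ‖(A.map (algebraMap ℝ ℂ)).eval α -
      (t : ℂ) * (B.map (algebraMap ℝ ℂ)).eval α‖).prod ≤
      (A.coeff N + |B.coeff N|) ^ P.natDegree * M ^ N := by
  -- monotonicity of nodes
  have hstrict : ∀ i j, i ≤ j → j ≤ N → y i ≤ y j := by
    intro i j hij
    induction j, hij using Nat.le_induction with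
    | base => intro _; exact le_rfl
    | succ j hij ih => intro hj; exact (ih (by omega)).trans (hmono j (by omega)).le
  choose! η hη1 hη2 hη0 using fun k (hk : k < N) => exists_root_between (A := A) (B := B)
    (hmono k hk) ht (hdom k hk.le) (hdom (k + 1) hk) (hsign k hk)
  have hinj : Set.InjOn η (Finset.range N) := by
    intro i hi j hj hij
    simp only [Finset.coe_range, Set.mem_Iio] at hi hj
    rcases lt_trichotomy i j with h | h | h
    · exfalso
      have h1 := hη2 i hi
      have h2 := hη1 j hj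
      have h3 := hstrict (i + 1) j h hj.le
      rw [hij] at h1; linarith
    · exact h
    · exfalso
      have h1 := hη2 j hj
      have h2 := hη1 i hi
      have h3 := hstrict (j + 1) i h hi.le
      rw [← hij] at h1; linarith
  set G : ℝ[X] := A - C t * B with hG
  have hGdeg : G.natDegree ≤ N := by
    refine (natDegree_sub_le _ _).trans (max_le hA ?_)
    exact (natDegree_C_mul_le _ _).trans hB
  have hfac := eq_prod_of_roots hGdeg η hinj (fun k hk => hη0 k hk)
  have hcoef : G.coeff N = A.coeff N - t * B.coeff N := by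
    rw [hG, coeff_sub, coeff_C_mul]
  have hcoefle : |G.coeff N| ≤ A.coeff N + |B.coeff N| := by
    rw [hcoef]
    calc |A.coeff N - t * B.coeff N| ≤ |A.coeff N| + |t * B.coeff N| := abs_sub _ _
      _ = A.coeff N + |t| * |B.coeff N| := by
          rw [abs_mul, abs_of_pos (lt_of_le_of_lt (abs_nonneg _) hlead)]
      _ ≤ A.coeff N + |B.coeff N| := by
          have := mul_le_of_le_one_left (abs_nonneg (B.coeff N)) ht
          linarith
  have hevG : ∀ α : ℂ, (A.map (algebraMap ℝ ℂ)).eval α -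
      (t : ℂ) * (B.map (algebraMap ℝ ℂ)).eval α =
      (G.coeff N : ℂ) * ∏ k ∈ Finset.range N, (α - (η k : ℂ)) := by
    intro α
    have h1 : (G.map (algebraMap ℝ ℂ)).eval α = (A.map (algebraMap ℝ ℂ)).eval α -
      (t : ℂ) * (B.map (algebraMap ℝ ℂ)).eval α := by
      rw [hG]; simp
    rw [← h1]
    conv_lhs => rw [hfac]
    simp [Polynomial.map_mul, Polynomial.map_prod, eval_mul, eval_prod]
  -- P splits
  have hsplit := IsAlgClosed.splits P
  have hPeval : ∀ x : ℂ, P.eval x = P.leadingCoeff * (P.roots.map fun α => x - α).prod := by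
    intro x
    conv_lhs => rw [hsplit.eq_prod_roots]
    rw [eval_mul, eval_C, eval_multiset_prod, Multiset.map_map]
    simp
  have hcard : Multiset.card P.roots = P.natDegree := hsplit.natDegree_eq_card_roots.symm
  have hswap : (P.roots.map fun α => ∏ k ∈ Finset.range N, ‖α - (η k : ℂ)‖).prod =
      ∏ k ∈ Finset.range N, (P.roots.map fun α => ‖(η k : ℂ) - α‖).prod := by
    rw [Multiset.prod_map_prod]
    refine Finset.prod_congr rfl fun k _ => ?_
    congr 1
    refine Multiset.map_congr rfl fun α _ => ?_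
    exact norm_sub_rev _ _
  have hnormP : ∀ k, ‖P.eval (η k : ℂ)‖ =
      ‖P.leadingCoeff‖ * (P.roots.map fun α => ‖(η k : ℂ) - α‖).prod := by
    intro k
    rw [hPeval, norm_mul]
    congr 1
    rw [norm_multiset_prod', Multiset.map_map]
    rfl
  calc ‖P.leadingCoeff‖ ^ N * (P.roots.map fun α => ‖(A.map (algebraMap ℝ ℂ)).eval α -
      (t : ℂ) * (B.map (algebraMap ℝ ℂ)).eval α‖).prod
      = ‖P.leadingCoeff‖ ^ N * (P.roots.map fun α => |G.coeff N| *
        ∏ k ∈ Finset.range N, ‖α - (η k : ℂ)‖).prod := by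
        congr 2
        refine Multiset.map_congr rfl fun α _ => ?_
        rw [hevG, norm_mul, norm_prod, Complex.norm_real, Real.norm_eq_abs]
    _ = |G.coeff N| ^ P.natDegree * ∏ k ∈ Finset.range N, ‖P.eval (η k : ℂ)‖ := by
        rw [Multiset.prod_map_mul, Multiset.map_const', Multiset.prod_replicate, hcard, hswap]
        simp only [hnormP]
        rw [Finset.prod_mul_distrib, Finset.prod_const, Finset.card_range]
        ring
    _ ≤ (A.coeff N + |B.coeff N|) ^ P.natDegree * M ^ N := by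
        refine mul_le_mul (pow_le_pow_left₀ (abs_nonneg _) hcoefle _) ?_
          (Finset.prod_nonneg fun _ _ => norm_nonneg _)
          (pow_nonneg (le_trans (abs_nonneg _) hcoefle) _)
        calc ∏ k ∈ Finset.range N, ‖P.eval (η k : ℂ)‖ ≤ ∏ _k ∈ Finset.range N, M := by
              refine Finset.prod_le_prod (fun _ _ => norm_nonneg _) fun k hk => ?_
              have hk' := Finset.mem_range.mp hk
              refine hM _ ?_ ?_
              · exact (hstrict 0 k (Nat.zero_le _) hk'.le).trans (hη1 k hk').le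
              · exact (hη2 k hk').le.trans (hstrict (k + 1) N hk' le_rfl)
          _ = M ^ N := by rw [Finset.prod_const, Finset.card_range]

/-- the local factor -/
noncomputable def phi (A B : ℝ[X]) (α : ℂ) : ℝ :=
  open Classical in
  if (B.map (algebraMap ℝ ℂ)).eval α = 0 then ‖(A.map (algebraMap ℝ ℂ)).eval α‖
  else ‖(B.map (algebraMap ℝ ℂ)).eval α‖ / 2

theorem phi_nonneg (A B : ℝ[X]) (α : ℂ) : 0 ≤ phi A B α := by
  unfold phi; split_ifs <;> positivity

/-- averaging over `t = cos θ` by the maximum principle -/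
theorem prod_phi_le {A B : ℝ[X]} (s : Multiset ℂ) (c K : ℝ) (hc : 0 ≤ c)
    (h : ∀ t : ℝ, |t| ≤ 1 → c * (s.map fun α => ‖(A.map (algebraMap ℝ ℂ)).eval α -
      (t : ℂ) * (B.map (algebraMap ℝ ℂ)).eval α‖).prod ≤ K) :
    c * (s.map (phi A B)).prod ≤ K := by
  classical
  set a := fun α : ℂ => (A.map (algebraMap ℝ ℂ)).eval α with ha
  set b := fun α : ℂ => (B.map (algebraMap ℝ ℂ)).eval α with hb
  let π : ℂ → ℂ → ℂ := fun z α => if b α = 0 then a α else a α * z - b α * (z ^ 2 + 1) / 2
  let Φ : ℂ → ℂ := fun z => (c : ℂ) * (s.map (π z)).prod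
  have hdiff : Differentiable ℂ Φ := by
    refine (differentiable_const _).mul ?_
    have : ∀ s : Multiset ℂ, Differentiable ℂ fun z => (s.map (π z)).prod := by
      intro s
      induction s using Multiset.induction_on with
      | empty => simp
      | cons α s ih =>
        simp only [Multiset.map_cons, Multiset.prod_cons]
        refine Differentiable.mul ?_ ih
        simp only [π]
        split_ifs
        · exact differentiable_const _
        · fun_prop
    exact this s
  have hbd : ∀ z ∈ frontier (Metric.ball (0 : ℂ) 1), ‖Φ z‖ ≤ K := by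
    intro z hz
    rw [frontier_ball (0 : ℂ) one_ne_zero] at hz
    have hz1 : ‖z‖ = 1 := mem_sphere_zero_iff_norm.mp hz
    have hre : |z.re| ≤ 1 := (Complex.abs_re_le_norm z).trans hz1.le
    have hz2 : z ^ 2 + 1 = 2 * (z.re : ℂ) * z := by
      have h1 : z * (starRingEnd ℂ) z = 1 := by
        rw [Complex.mul_conj, Complex.normSq_eq_norm_sq, hz1]; norm_num
      have h2 : z + (starRingEnd ℂ) z = 2 * (z.re : ℂ) := by
        rw [Complex.add_conj]; push_cast; ring
      calc z ^ 2 + 1 = z ^ 2 + z * (starRingEnd ℂ) z := by rw [h1]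
        _ = (z + (starRingEnd ℂ) z) * z := by ring
        _ = _ := by rw [h2]
    refine le_trans (le_of_eq ?_) (h z.re hre)
    have hnp : ‖(s.map (π z)).prod‖ = (s.map fun α => ‖π z α‖).prod := by
      rw [norm_multiset_prod', Multiset.map_map]
      rfl
    simp only [Φ]
    rw [norm_mul, hnp, Complex.norm_real, Real.norm_eq_abs, abs_of_nonneg hc]
    congr 2
    refine Multiset.map_congr rfl fun α _ => ?_
    simp only [π]
    split_ifs with hb0
    · have : (B.map (algebraMap ℝ ℂ)).eval α = 0 := hb0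
      rw [this]; simp [a]
    · rw [hz2]
      have : a α * z - b α * (2 * (z.re : ℂ) * z) / 2 = z * (a α - z.re * b α) := by ring
      rw [this, norm_mul, hz1, one_mul]
  have hmax := Complex.norm_le_of_forall_mem_frontier_norm_le (U := Metric.ball (0 : ℂ) 1)
    Metric.isBounded_ball hdiff.diffContOnCl hbd (z := 0)
    (subset_closure (Metric.mem_ball_self one_pos))
  refine le_trans (le_of_eq ?_) hmax
  have hnp : ‖(s.map (π 0)).prod‖ = (s.map fun α => ‖π 0 α‖).prod := by
    rw [norm_multiset_prod', Multiset.map_map]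
    rfl
  simp only [Φ]
  rw [norm_mul, hnp, Complex.norm_real, Real.norm_eq_abs, abs_of_nonneg hc]
  congr 2
  refine Multiset.map_congr rfl fun α _ => ?_
  simp only [π, phi]
  by_cases hb0 : b α = 0
  · have : (B.map (algebraMap ℝ ℂ)).eval α = 0 := hb0
    rw [if_pos hb0, if_pos this]
  · have : ¬ (B.map (algebraMap ℝ ℂ)).eval α = 0 := hb0
    rw [if_neg hb0, if_neg this]
    simp [b]

/-! ## Arithmetic part -/

theorem isCoprime_fraction {f h : ℤ[X]} (hf : Irreducible f) (hdeg : f.natDegree ≠ 0)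
    (hdvd : ¬ f ∣ h) :
    IsCoprime (f.map (algebraMap ℤ ℚ)) (h.map (algebraMap ℤ ℚ)) := by
  have hprim := hf.isPrimitive hdeg
  have h1 : Irreducible (f.map (algebraMap ℤ ℚ)) :=
    (hprim.irreducible_iff_irreducible_map_fraction_map (K := ℚ)).mp hf
  rw [h1.coprime_iff_not_dvd]
  intro h2
  exact hdvd (hprim.dvd_of_fraction_map_dvd_fraction_map (K := ℚ) h2)

/-- An irreducible `F` not dividing `P` has `|lead P| ^ deg F * ∏ |F(α)| ≥ 1` over the roots of `P`. -/
theorem one_le_prod_eval {F P : ℤ[X]} (hF : Irreducible F) (hdeg : F.natDegree ≠ 0)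
    (hdvd : ¬ F ∣ P) :
    1 ≤ ‖(P.map (algebraMap ℤ ℂ)).leadingCoeff‖ ^ F.natDegree *
      ((P.map (algebraMap ℤ ℂ)).roots.map fun α => ‖(F.map (algebraMap ℤ ℂ)).eval α‖).prod := by
  have hinj : Function.Injective (algebraMap ℤ ℂ) := (algebraMap ℤ ℂ).injective_int
  have hinjQ : Function.Injective (algebraMap ℤ ℚ) := (algebraMap ℤ ℚ).injective_int
  have hne : resultant P F P.natDegree F.natDegree ≠ 0 := by
    intro h0
    have h1 : resultant (P.map (algebraMap ℤ ℚ)) (F.map (algebraMap ℤ ℚ)) P.natDegree F.natDegree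
        = 0 := by
      rw [resultant_map_map, h0, map_zero]
    have h2 : (F.map (algebraMap ℤ ℚ)).natDegree = F.natDegree :=
      natDegree_map_eq_of_injective hinjQ F
    have h3 : (P.map (algebraMap ℤ ℚ)).natDegree = P.natDegree :=
      natDegree_map_eq_of_injective hinjQ P
    rw [← h2, ← h3, resultant_eq_zero_iff] at h1
    exact h1.2 (isCoprime_fraction hF hdeg hdvd).symm
  have h2 : (F.map (algebraMap ℤ ℂ)).natDegree = F.natDegree :=
    natDegree_map_eq_of_injective hinj F
  have h3 : (P.map (algebraMap ℤ ℂ)).natDegree = P.natDegree :=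
    natDegree_map_eq_of_injective hinj P
  have h4 := resultant_eq_prod_eval (P.map (algebraMap ℤ ℂ)) (F.map (algebraMap ℤ ℂ))
    F.natDegree h2.le (IsAlgClosed.splits _)
  rw [h3, resultant_map_map] at h4
  have h5 : ‖(algebraMap ℤ ℂ) (resultant P F P.natDegree F.natDegree)‖ =
      ‖(P.map (algebraMap ℤ ℂ)).leadingCoeff‖ ^ F.natDegree *
      ((P.map (algebraMap ℤ ℂ)).roots.map fun α => ‖(F.map (algebraMap ℤ ℂ)).eval α‖).prod := by
    rw [h4, norm_mul, norm_pow, norm_multiset_prod', Multiset.map_map]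
    rfl
  rw [← h5]
  simp only [eq_intCast, Complex.norm_intCast]
  exact_mod_cast Int.one_le_abs hne

section Lam

variable {ι : Type*} [Fintype ι]

/-- the denominator `B = ∏ F j ^ m j` as a real polynomial -/
noncomputable def Bpoly (F : ι → ℤ[X]) (m : ι → ℕ) : ℝ[X] :=
  ∏ j, ((F j).map (algebraMap ℤ ℝ)) ^ m j

/-- the numerator `A = a ∏ (X - ρ i)` -/
noncomputable def Apoly (a : ℝ) (N : ℕ) (ρ : ℕ → ℝ) : ℝ[X] :=
  C a * ∏ i ∈ Finset.range N, (X - C (ρ i))

/-- the multiplicative functional -/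
noncomputable def lam (A B : ℝ[X]) (N : ℕ) (P : ℤ[X]) : ℝ :=
  ‖(P.map (algebraMap ℤ ℂ)).leadingCoeff‖ ^ N *
    ((P.map (algebraMap ℤ ℂ)).roots.map (phi A B)).prod

theorem map_ne_zero_C {P : ℤ[X]} (hP : P ≠ 0) : P.map (algebraMap ℤ ℂ) ≠ 0 :=
  (Polynomial.map_ne_zero_iff (algebraMap ℤ ℂ).injective_int).mpr hP

theorem lam_mul (A B : ℝ[X]) (N : ℕ) {P Q : ℤ[X]} (hP : P ≠ 0) (hQ : Q ≠ 0) :
    lam A B N (P * Q) = lam A B N P * lam A B N Q := by
  unfold lam
  rw [Polynomial.map_mul, leadingCoeff_mul, norm_mul, mul_pow,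
    roots_mul (mul_ne_zero (map_ne_zero_C hP) (map_ne_zero_C hQ)), Multiset.map_add,
    Multiset.prod_add]
  ring

theorem eval_Bpoly_C (F : ι → ℤ[X]) (m : ι → ℕ) (α : ℂ) :
    ((Bpoly F m).map (algebraMap ℝ ℂ)).eval α =
      ∏ j, (((F j).map (algebraMap ℤ ℂ)).eval α) ^ m j := by
  unfold Bpoly
  rw [Polynomial.map_prod, eval_prod]
  refine Finset.prod_congr rfl fun j _ => ?_
  rw [Polynomial.map_pow, eval_pow, Polynomial.map_map]
  congr 3

theorem eval_Apoly_C (a : ℝ) (N : ℕ) (ρ : ℕ → ℝ) (α : ℂ) :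
    ((Apoly a N ρ).map (algebraMap ℝ ℂ)).eval α =
      (a : ℂ) * ∏ i ∈ Finset.range N, (α - (ρ i : ℂ)) := by
  unfold Apoly
  simp [Polynomial.map_mul, Polynomial.map_prod, eval_mul, eval_prod]

theorem lam_F {F : ι → ℤ[X]} {m : ι → ℕ} {a : ℝ} (ha : 0 < a) {N : ℕ} (ρ : ℕ → ℝ) (j : ι)
    (hm : m j ≠ 0) (hF : F j ≠ 0) :
    lam (Apoly a N ρ) (Bpoly F m) N (F j) =
      a ^ (F j).natDegree * ∏ i ∈ Finset.range N, |((F j).map (algebraMap ℤ ℝ)).eval (ρ i)| := by
  have hF' := map_ne_zero_C hF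
  have hsplit := IsAlgClosed.splits ((F j).map (algebraMap ℤ ℂ))
  have hnd : ((F j).map (algebraMap ℤ ℂ)).natDegree = (F j).natDegree :=
    natDegree_map_eq_of_injective (algebraMap ℤ ℂ).injective_int _
  have hcard : Multiset.card ((F j).map (algebraMap ℤ ℂ)).roots = (F j).natDegree := by
    rw [← hnd]; exact hsplit.natDegree_eq_card_roots.symm
  unfold lam
  have h1 : ((F j).map (algebraMap ℤ ℂ)).roots.map (phi (Apoly a N ρ) (Bpoly F m)) =
      ((F j).map (algebraMap ℤ ℂ)).roots.map fun α => a *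
        ∏ i ∈ Finset.range N, ‖α - (ρ i : ℂ)‖ := by
    refine Multiset.map_congr rfl fun α hα => ?_
    have h0 : ((F j).map (algebraMap ℤ ℂ)).eval α = 0 := (mem_roots hF').mp hα
    have hB : ((Bpoly F m).map (algebraMap ℝ ℂ)).eval α = 0 := by
      rw [eval_Bpoly_C]
      exact Finset.prod_eq_zero (Finset.mem_univ j) (by rw [h0, zero_pow hm])
    rw [phi, if_pos hB, eval_Apoly_C, norm_mul, norm_prod, Complex.norm_real, Real.norm_eq_abs,
      abs_of_pos ha]
  rw [h1, Multiset.prod_map_mul, Multiset.map_const', Multiset.prod_replicate, hcard,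
    Multiset.prod_map_prod]
  have h2 : ∀ i, |((F j).map (algebraMap ℤ ℝ)).eval (ρ i)| =
      ‖((F j).map (algebraMap ℤ ℂ)).leadingCoeff‖ *
        (((F j).map (algebraMap ℤ ℂ)).roots.map fun α => ‖α - (ρ i : ℂ)‖).prod := by
    intro i
    have e1 : ((F j).map (algebraMap ℤ ℂ)).eval (ρ i : ℂ) =
        ((((F j).map (algebraMap ℤ ℝ)).eval (ρ i) : ℝ) : ℂ) := by
      have : (F j).map (algebraMap ℤ ℂ) = ((F j).map (algebraMap ℤ ℝ)).map (algebraMap ℝ ℂ) := by
        rw [Polynomial.map_map]; congr 1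
      rw [this, eval_map_algebraMap]
      exact (Polynomial.aeval_algebraMap_apply ℂ (ρ i) _)
    have e2 : ‖((F j).map (algebraMap ℤ ℂ)).eval (ρ i : ℂ)‖ =
        |((F j).map (algebraMap ℤ ℝ)).eval (ρ i)| := by
      rw [e1, Complex.norm_real, Real.norm_eq_abs]
    rw [← e2]
    conv_lhs => rw [hsplit.eq_prod_roots]
    rw [eval_mul, eval_C, eval_multiset_prod, Multiset.map_map, norm_mul, norm_multiset_prod',
      Multiset.map_map]
    congr 2
    refine Multiset.map_congr rfl fun α _ => ?_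
    simp only [Function.comp_apply, eval_sub, eval_X, eval_C]
    exact norm_sub_rev _ _
  simp only [h2]
  rw [Finset.prod_mul_distrib, Finset.prod_const, Finset.card_range]
  ring

theorem lam_coprime {F : ι → ℤ[X]} {m : ι → ℕ} {A : ℝ[X]} {N : ℕ}
    (hirr : ∀ j, Irreducible (F j)) (hdeg : ∀ j, (F j).natDegree ≠ 0)
    (hN : ∑ j, m j * (F j).natDegree ≤ N) {P : ℤ[X]} (hP : P ≠ 0) (hdvd : ∀ j, ¬ F j ∣ P) :
    (1 / 2 : ℝ) ^ P.natDegree ≤ lam A (Bpoly F m) N P := by
  have hP' := map_ne_zero_C hP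
  have hsplit := IsAlgClosed.splits (P.map (algebraMap ℤ ℂ))
  have hnd : (P.map (algebraMap ℤ ℂ)).natDegree = P.natDegree :=
    natDegree_map_eq_of_injective (algebraMap ℤ ℂ).injective_int _
  have hcard : Multiset.card (P.map (algebraMap ℤ ℂ)).roots = P.natDegree := by
    rw [← hnd]; exact hsplit.natDegree_eq_card_roots.symm
  have hone := fun j => one_le_prod_eval (hirr j) (hdeg j) (hdvd j)
  -- `|lead| ≥ 1`
  have hlead : 1 ≤ ‖(P.map (algebraMap ℤ ℂ)).leadingCoeff‖ := by
    rw [leadingCoeff_map_of_injective (algebraMap ℤ ℂ).injective_int, eq_intCast,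
      Complex.norm_intCast]
    exact_mod_cast Int.one_le_abs (leadingCoeff_ne_zero.mpr hP)
  have hnz : ∀ j, ∀ α ∈ (P.map (algebraMap ℤ ℂ)).roots,
      ((F j).map (algebraMap ℤ ℂ)).eval α ≠ 0 := by
    intro j α hα h0
    have h1 : ((P.map (algebraMap ℤ ℂ)).roots.map
        fun α => ‖((F j).map (algebraMap ℤ ℂ)).eval α‖).prod = 0 :=
      Multiset.prod_eq_zero (Multiset.mem_map.mpr ⟨α, hα, by rw [h0, norm_zero]⟩)
    have := hone j
    rw [h1, mul_zero] at this
    linarith
  have hphi : (P.map (algebraMap ℤ ℂ)).roots.map (phi A (Bpoly F m)) =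
      (P.map (algebraMap ℤ ℂ)).roots.map fun α => (1 / 2 : ℝ) *
        ∏ j, ‖((F j).map (algebraMap ℤ ℂ)).eval α‖ ^ m j := by
    refine Multiset.map_congr rfl fun α hα => ?_
    have hB : ((Bpoly F m).map (algebraMap ℝ ℂ)).eval α ≠ 0 := by
      rw [eval_Bpoly_C]
      exact Finset.prod_ne_zero_iff.mpr fun j _ => pow_ne_zero _ (hnz j α hα)
    rw [phi, if_neg hB, eval_Bpoly_C, norm_prod]
    simp only [norm_pow]
    ring
  unfold lam
  rw [hphi, Multiset.prod_map_mul, Multiset.map_const', Multiset.prod_replicate, hcard,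
    Multiset.prod_map_prod]
  have h3 : ∏ j, ((P.map (algebraMap ℤ ℂ)).roots.map
      fun α => ‖((F j).map (algebraMap ℤ ℂ)).eval α‖ ^ m j).prod =
      ∏ j, (((P.map (algebraMap ℤ ℂ)).roots.map
      fun α => ‖((F j).map (algebraMap ℤ ℂ)).eval α‖).prod) ^ m j := by
    refine Finset.prod_congr rfl fun j _ => ?_
    rw [Multiset.prod_map_pow]
  rw [h3]
  set L := ‖(P.map (algebraMap ℤ ℂ)).leadingCoeff‖ with hL
  have h4 : 1 ≤ L ^ (∑ j, m j * (F j).natDegree) * ∏ j, (((P.map (algebraMap ℤ ℂ)).roots.map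
      fun α => ‖((F j).map (algebraMap ℤ ℂ)).eval α‖).prod) ^ m j := by
    have h5 : L ^ (∑ j, m j * (F j).natDegree) = ∏ j, (L ^ (F j).natDegree) ^ m j := by
      rw [← Finset.prod_pow_eq_pow_sum]
      refine Finset.prod_congr rfl fun j _ => ?_
      rw [← pow_mul, mul_comm]
    rw [h5, ← Finset.prod_mul_distrib]
    have h6 : ∀ j, 1 ≤ (L ^ (F j).natDegree) ^ m j * (((P.map (algebraMap ℤ ℂ)).roots.map
      fun α => ‖((F j).map (algebraMap ℤ ℂ)).eval α‖).prod) ^ m j := by
      intro j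
      rw [← mul_pow]
      exact one_le_pow₀ (hone j)
    calc (1 : ℝ) = ∏ _j : ι, (1 : ℝ) := by simp
      _ ≤ _ := Finset.prod_le_prod (fun _ _ => zero_le_one) fun j _ => h6 j
  have hprodnn : 0 ≤ ∏ j, (((P.map (algebraMap ℤ ℂ)).roots.map
      fun α => ‖((F j).map (algebraMap ℤ ℂ)).eval α‖).prod) ^ m j := by
    refine Finset.prod_nonneg fun j _ => pow_nonneg ?_ _
    refine Multiset.prod_nonneg ?_
    intro x hx
    obtain ⟨α, _, rfl⟩ := Multiset.mem_map.mp hx
    exact norm_nonneg _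
  have h7 : 1 ≤ L ^ N * ∏ j, (((P.map (algebraMap ℤ ℂ)).roots.map
      fun α => ‖((F j).map (algebraMap ℤ ℂ)).eval α‖).prod) ^ m j :=
    h4.trans (mul_le_mul_of_nonneg_right (pow_le_pow_right₀ hlead hN) hprodnn)
  have h8 : 0 ≤ (1 / 2 : ℝ) ^ P.natDegree := by positivity
  calc (1 / 2 : ℝ) ^ P.natDegree = (1 / 2 : ℝ) ^ P.natDegree * 1 := by ring
    _ ≤ (1 / 2 : ℝ) ^ P.natDegree * (L ^ N * ∏ j, (((P.map (algebraMap ℤ ℂ)).roots.map
      fun α => ‖((F j).map (algebraMap ℤ ℂ)).eval α‖).prod) ^ m j) :=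
        mul_le_mul_of_nonneg_left h7 h8
    _ = _ := by ring

theorem lam_ge {F : ι → ℤ[X]} {m : ι → ℕ} {a : ℝ} (ha : 0 < a) {N : ℕ} (ρ : ℕ → ℝ)
    (hirr : ∀ j, Irreducible (F j)) (hdeg : ∀ j, (F j).natDegree ≠ 0) (hm : ∀ j, m j ≠ 0)
    (hN : ∑ j, m j * (F j).natDegree ≤ N)
    (hR : ∀ j, 1 ≤ (2 * a) ^ (F j).natDegree *
      ∏ i ∈ Finset.range N, |((F j).map (algebraMap ℤ ℝ)).eval (ρ i)|)
    (P : ℤ[X]) (hP : P ≠ 0) :
    (1 / 2 : ℝ) ^ P.natDegree ≤ lam (Apoly a N ρ) (Bpoly F m) N P := by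
  induction hn : P.natDegree using Nat.strong_induction_on generalizing P with
  | _ n ih =>
    by_cases h : ∃ j, F j ∣ P
    · obtain ⟨j, Q, rfl⟩ := h
      have hQ : Q ≠ 0 := right_ne_zero_of_mul hP
      have hFj : F j ≠ 0 := (hirr j).ne_zero
      rw [natDegree_mul hFj hQ] at hn
      have hlt : Q.natDegree < n := by have := hdeg j; omega
      have h1 := ih _ hlt Q hQ rfl
      rw [lam_mul _ _ _ hFj hQ, ← hn, pow_add]
      refine mul_le_mul ?_ h1 (by positivity) ?_
      · rw [lam_F ha ρ j (hm j) hFj]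
        have := hR j
        rw [mul_pow] at this
        have h2 : (1 / 2 : ℝ) ^ (F j).natDegree * 2 ^ (F j).natDegree = 1 := by
          rw [← mul_pow]; norm_num
        calc (1 / 2 : ℝ) ^ (F j).natDegree = (1 / 2 : ℝ) ^ (F j).natDegree * 1 := by ring
          _ ≤ (1 / 2 : ℝ) ^ (F j).natDegree * (2 ^ (F j).natDegree * a ^ (F j).natDegree *
              ∏ i ∈ Finset.range N, |((F j).map (algebraMap ℤ ℝ)).eval (ρ i)|) :=
              mul_le_mul_of_nonneg_left this (by positivity)
          _ = ((1 / 2 : ℝ) ^ (F j).natDegree * 2 ^ (F j).natDegree) * (a ^ (F j).natDegree *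
              ∏ i ∈ Finset.range N, |((F j).map (algebraMap ℤ ℝ)).eval (ρ i)|) := by ring
          _ = _ := by rw [h2, one_mul]
      · rw [lam_F ha ρ j (hm j) hFj]
        exact mul_nonneg (pow_nonneg ha.le _) (Finset.prod_nonneg fun _ _ => abs_nonneg _)
    · push Not at h
      rw [← hn]
      exact lam_coprime hirr hdeg hN hP h

end Lam

end H27Cheb
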