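import Pool.Agent.H27Cheb.Check

/-!
# Executable irreducibility check for integer polynomials (modulo small primes)
-/

open Polynomial

namespace H27Cheb

/-- list polynomial modulo `p` -/
noncomputable def toP (p : ℕ) : List ℕ → (ZMod p)[X]
  | [] => 0
  | c :: l => C (c : ZMod p) + X * toP p l

/-- one Horner step modulo the monic polynomial `X^k + g` -/
def stepR (p : ℕ) (g : List ℕ) (c : ℕ) (r : List ℕ) : List ℕ :=
  List.zipWith (fun gi ri => (ri + r.getLastD 0 * (p - gi)) % p) g (c :: r.dropLast)

/-- remainder modulo `X^k + g` -/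
def remF (p : ℕ) (g : List ℕ) : List ℕ → List ℕ
  | [] => List.replicate g.length 0
  | c :: l => stepR p g c (remF p g l)

/-- all lists of length `k` with entries `< p` -/
def gen (p : ℕ) : ℕ → List (List ℕ)
  | 0 => [[]]
  | k + 1 => (gen p k).flatMap fun l => (List.range p).map fun a => a :: l

/-- no monic factor of degree `k` modulo `p` -/
def noFac (p k : ℕ) (cs : List ℕ) : Bool :=
  (gen p k).all fun g => (remF p g cs).any fun x => Nat.blt 0 (x % p)

theorem mem_gen (p : ℕ) : ∀ (l : List ℕ), (∀ x ∈ l, x < p) → l ∈ gen p l.length := by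
  intro l
  induction l with
  | nil => intro _; simp [gen]
  | cons a l ih =>
    intro h
    simp only [List.length_cons, gen, List.mem_flatMap, List.mem_map, List.mem_range]
    exact ⟨l, ih fun x hx => h x (List.mem_cons_of_mem _ hx), a, h a List.mem_cons_self, rfl⟩

theorem length_stepR (p : ℕ) (g : List ℕ) (c : ℕ) (r : List ℕ) (hg : g ≠ [])
    (h : r.length = g.length) :
    (stepR p g c r).length = g.length := by
  have : 0 < g.length := List.length_pos_iff.mpr hg
  simp [stepR, h]
  omega

theorem length_remF (p : ℕ) (g : List ℕ) (hg : g ≠ []) : ∀ cs : List ℕ,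
    (remF p g cs).length = g.length := by
  intro cs
  induction cs with
  | nil => simp [remF]
  | cons c l ih => exact length_stepR p g c _ hg ih

theorem toP_append_single (p : ℕ) : ∀ (l : List ℕ) (t : ℕ),
    toP p (l ++ [t]) = toP p l + C (t : ZMod p) * X ^ l.length := by
  intro l
  induction l with
  | nil => intro t; simp [toP]
  | cons a l ih =>
    intro t
    simp only [List.cons_append, toP, ih, List.length_cons]
    ring

theorem toP_zipWith (p t : ℕ) : ∀ (g r : List ℕ), g.length = r.length → (∀ x ∈ g, x < p) →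
    toP p (List.zipWith (fun gi ri => (ri + t * (p - gi)) % p) g r) =
      toP p r - C (t : ZMod p) * toP p g := by
  intro g
  induction g with
  | nil =>
    intro r h _
    have : r = [] := List.length_eq_zero_iff.mp h.symm
    subst this
    simp [toP]
  | cons a g ih =>
    intro r h hlt
    match r with
    | [] => simp at h
    | b :: r =>
      have h1 := ih r (by simpa using h) fun x hx => hlt x (List.mem_cons_of_mem _ hx)
      have ha := hlt a List.mem_cons_self
      simp only [List.zipWith_cons_cons, toP, h1]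
      have e1 : (((b + t * (p - a)) % p : ℕ) : ZMod p) = (b : ZMod p) - t * a := by
        rw [ZMod.natCast_mod]
        push_cast [Nat.cast_sub ha.le]
        simp
        ring
      rw [e1]
      simp only [map_sub, map_mul]
      ring

/-- the monic polynomial attached to `g` -/
noncomputable def monP (p : ℕ) (g : List ℕ) : (ZMod p)[X] := X ^ g.length + toP p g

theorem stepR_spec (p : ℕ) (g : List ℕ) (c : ℕ) (r : List ℕ) (hg : g ≠ [])
    (h : r.length = g.length) (hlt : ∀ x ∈ g, x < p) :
    monP p g ∣ toP p (c :: r) - toP p (stepR p g c r) := by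
  have hr : r ≠ [] := by
    intro h0; rw [h0] at h; exact hg (List.length_eq_zero_iff.mp h.symm)
  have hlen : g.length = (c :: r.dropLast).length := by
    have : 0 < r.length := List.length_pos_iff.mpr hr
    simp; omega
  have h1 : toP p (stepR p g c r) =
      toP p (c :: r.dropLast) - C ((r.getLastD 0 : ℕ) : ZMod p) * toP p g :=
    toP_zipWith p _ g _ hlen hlt
  have h2 : toP p (c :: r) = toP p (c :: r.dropLast) +
      C ((r.getLastD 0 : ℕ) : ZMod p) * X ^ g.length := by
    have h3 : c :: r = (c :: r.dropLast) ++ [r.getLastD 0] := by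
      rw [List.cons_append]
      congr 1
      rw [List.getLastD_eq_getLast?, List.getLast?_eq_some_getLast hr, Option.getD_some]
      exact (List.dropLast_append_getLast hr).symm
    rw [h3, toP_append_single, ← hlen]
  refine ⟨C ((r.getLastD 0 : ℕ) : ZMod p), ?_⟩
  rw [h1, h2, monP]
  ring

theorem remF_spec (p : ℕ) (g : List ℕ) (hg : g ≠ []) (hlt : ∀ x ∈ g, x < p) : ∀ cs : List ℕ,
    monP p g ∣ toP p cs - toP p (remF p g cs) := by
  intro cs
  induction cs with
  | nil =>
    have : toP p (remF p g []) = 0 := by
      simp only [remF]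
      generalize g.length = k
      induction k with
      | zero => simp [toP]
      | succ k ih => simp [List.replicate_succ, toP, ih]
    rw [this]
    simp [toP]
  | cons c l ih =>
    have h1 := stepR_spec p g c (remF p g l) hg (length_remF p g hg l) hlt
    have h2 : toP p (c :: l) - toP p (remF p g (c :: l)) =
        X * (toP p l - toP p (remF p g l)) +
          (toP p (c :: remF p g l) - toP p (stepR p g c (remF p g l))) := by
      simp only [toP, remF]; ring
    rw [h2]
    exact dvd_add (Dvd.dvd.mul_left ih _) h1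

theorem coeff_toP (p : ℕ) : ∀ (l : List ℕ) (k : ℕ), (toP p l).coeff k = ((l.getD k 0 : ℕ) : ZMod p) := by
  intro l
  induction l with
  | nil => intro k; simp [toP]
  | cons c l ih =>
    intro k
    rw [toP, coeff_add]
    rcases k with _ | k
    · simp
    · rw [coeff_X_mul, ih]; simp

theorem degree_toP_lt (p : ℕ) (l : List ℕ) : (toP p l).degree < l.length := by
  rw [degree_lt_iff_coeff_zero]
  intro k hk
  rw [coeff_toP, List.getD_eq_default _ _ hk]
  simp

theorem noFac_spec {p k : ℕ} [Fact p.Prime] (hk : 0 < k) {cs : List ℕ} (h : noFac p k cs = true)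
    (G : (ZMod p)[X]) (hG : G.Monic) (hd : G.natDegree = k) : ¬ G ∣ toP p cs := by
  intro hdvd
  -- coefficient list of `G`
  set g : List ℕ := (List.range k).map fun i => (G.coeff i).val with hgdef
  have hglen : g.length = k := by simp [hgdef]
  have hg : g ≠ [] := by intro h0; rw [h0] at hglen; simp at hglen; omega
  have hlt : ∀ x ∈ g, x < p := by
    intro x hx
    simp only [hgdef, List.mem_map, List.mem_range] at hx
    obtain ⟨i, _, rfl⟩ := hx
    exact ZMod.val_lt _
  have hGeq : G = monP p g := by
    ext i
    rw [monP, coeff_add, coeff_X_pow, coeff_toP, hglen]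
    rcases lt_trichotomy i k with h1 | h1 | h1
    · rw [if_neg h1.ne, zero_add, List.getD_eq_getElem _ _ (by omega)]
      simp [hgdef]
    · subst h1
      rw [if_pos rfl, List.getD_eq_default _ _ (by omega)]
      simp only [Nat.cast_zero, add_zero]
      rw [← hd]; exact hG.coeff_natDegree
    · rw [if_neg h1.ne', List.getD_eq_default _ _ (by omega),
        coeff_eq_zero_of_natDegree_lt (by omega)]
      simp
  have hmem : g ∈ gen p k := by
    have := mem_gen p g hlt
    rwa [hglen] at this
  unfold noFac at h
  simp only [List.all_eq_true, List.any_eq_true, Nat.blt_eq] at h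
  obtain ⟨x, hx, hx0⟩ := h g hmem
  have h1 := remF_spec p g hg hlt cs
  rw [← hGeq] at h1
  have h2 : G ∣ toP p (remF p g cs) := by
    have := dvd_sub hdvd h1
    simpa using this
  have h3 : toP p (remF p g cs) = 0 := by
    refine eq_zero_of_dvd_of_degree_lt h2 ?_
    have h4 := degree_toP_lt p (remF p g cs)
    rw [length_remF p g hg, hglen] at h4
    rw [degree_eq_natDegree hG.ne_zero, hd]
    exact h4
  obtain ⟨i, hi, rfl⟩ := List.getElem_of_mem hx
  have h5 := coeff_toP p (remF p g cs) i
  rw [h3, coeff_zero, List.getD_eq_getElem _ _ hi] at h5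
  have h6 := (ZMod.natCast_eq_zero_iff _ _).mp h5.symm
  have h7 := Nat.mod_eq_zero_of_dvd h6
  omega

/-- coefficients modulo `p` -/
def Fac.cs (f : Fac) (p : ℕ) : List ℕ :=
  (List.range (f.d + 1)).map fun k => (f.E.getD k 0 + (p - f.O.getD k 0 % p)) % p

theorem Fac.toP_cs (f : Fac) {p : ℕ} (hp : 0 < p) (hE : f.E.length ≤ f.d + 1)
    (hO : f.O.length ≤ f.d + 1) :
    toP p (f.cs p) = f.poly.map (Int.castRingHom (ZMod p)) := by
  ext k
  rw [coeff_toP, coeff_map, Fac.coeff_poly]
  have hmodle : f.O.getD k 0 % p ≤ p := (Nat.mod_lt _ hp).le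
  rcases lt_or_ge k (f.d + 1) with h | h
  · rw [Fac.cs, List.getD_eq_getElem _ _ (by simpa using h)]
    simp only [List.getElem_map, List.getElem_range]
    rw [ZMod.natCast_mod]
    push_cast [Nat.cast_sub hmodle]
    simp
    ring
  · rw [Fac.cs, List.getD_eq_default _ _ (by simpa using h), List.getD_eq_default _ _ (by omega),
      List.getD_eq_default _ _ (by omega)]
    simp

/-- no factor of degree `i + 1` -/
def Fac.facCheck (f : Fac) (ps : List ℕ) : Bool :=
  (List.range (f.d / 2)).all fun i =>
    Nat.blt 0 (f.lead % (ps.getD i 2)) && noFac (ps.getD i 2) (i + 1) (f.cs (ps.getD i 2))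

/-- a coefficient equals `±1` -/
def Fac.primCheck (f : Fac) : Bool :=
  (List.range (f.d + 1)).any fun i =>
    (Nat.beq (f.E.getD i 0) 1 && Nat.beq (f.O.getD i 0) 0) ||
    (Nat.beq (f.E.getD i 0) 0 && Nat.beq (f.O.getD i 0) 1)

theorem Fac.irreducible {f : Fac} {ps : List ℕ} (hps : ∀ p ∈ ps, p.Prime) (h1 : f.ok = true)
    (h2 : f.facCheck ps = true) (h3 : f.primCheck = true) : Irreducible f.poly := by
  have hd := Fac.natDegree_poly h1
  have hok := h1
  unfold Fac.ok at hok
  simp only [Bool.and_eq_true, Bool.or_eq_true, Nat.ble_eq, Nat.blt_eq] at hok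
  obtain ⟨⟨⟨⟨hE, hO⟩, hdpos⟩, -⟩, hl⟩ := hok
  have hprim : ∀ r : ℤ, C r ∣ f.poly → IsUnit r := by
    intro r hr
    rw [C_dvd_iff_dvd_coeff] at hr
    unfold Fac.primCheck at h3
    simp only [List.any_eq_true, Bool.or_eq_true, Bool.and_eq_true] at h3
    obtain ⟨i, -, hi⟩ := h3
    have h4 := hr i
    rw [Fac.coeff_poly] at h4
    rcases hi with ⟨e1, e2⟩ | ⟨e1, e2⟩
    · rw [Nat.eq_of_beq_eq_true e1, Nat.eq_of_beq_eq_true e2] at h4
      exact isUnit_of_dvd_one (by simpa using h4)
    · rw [Nat.eq_of_beq_eq_true e1, Nat.eq_of_beq_eq_true e2] at h4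
      exact isUnit_of_dvd_one (by simpa using h4)
  have hne : f.poly ≠ 0 := by
    intro h; rw [h, natDegree_zero] at hd; omega
  have key : ∀ G H : ℤ[X], f.poly = G * H → 0 < G.natDegree → G.natDegree ≤ f.d / 2 → False := by
    intro G H hGH hG0 hG1
    unfold Fac.facCheck at h2
    simp only [List.all_eq_true, List.mem_range, Bool.and_eq_true, Nat.blt_eq] at h2
    obtain ⟨hlead, hno⟩ := h2 (G.natDegree - 1) (by omega)
    set p := ps.getD (G.natDegree - 1) 2 with hp
    have hpp : p.Prime := by
      rcases lt_or_ge (G.natDegree - 1) ps.length with h | h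
      · rw [hp, List.getD_eq_getElem _ _ h]
        exact hps _ (List.getElem_mem _)
      · rw [hp, List.getD_eq_default _ _ h]; exact Nat.prime_two
    have : Fact p.Prime := ⟨hpp⟩
    rw [show G.natDegree - 1 + 1 = G.natDegree by omega] at hno
    have hleadF : (Int.castRingHom (ZMod p)) f.poly.leadingCoeff ≠ 0 := by
      intro h0
      rw [leadingCoeff, hd, Fac.coeff_poly] at h0
      have h5 : ((f.lead : ℕ) : ZMod p) = 0 := by
        unfold Fac.lead
        rcases hl with ⟨e1, e2⟩ | ⟨e1, e2⟩
        · rw [Nat.eq_of_beq_eq_true e1] at h0 ⊢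
          simp only [Nat.cast_zero, zero_sub, map_neg, neg_eq_zero, map_natCast] at h0
          rw [zero_add]; simpa using h0
        · rw [Nat.eq_of_beq_eq_true e1] at h0 ⊢
          simp only [Nat.cast_zero, sub_zero, map_natCast] at h0
          rw [add_zero]; simpa using h0
      have h6 := (ZMod.natCast_eq_zero_iff _ _).mp h5
      have h7 := Nat.mod_eq_zero_of_dvd h6
      omega
    have hleadG : (Int.castRingHom (ZMod p)) G.leadingCoeff ≠ 0 := by
      intro h0
      apply hleadF
      rw [hGH, leadingCoeff_mul, map_mul, h0, zero_mul]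
    have hGd : (G.map (Int.castRingHom (ZMod p))).natDegree = G.natDegree :=
      natDegree_map_of_leadingCoeff_ne_zero _ hleadG
    have hGne : G.map (Int.castRingHom (ZMod p)) ≠ 0 := by
      intro h0
      rw [h0, natDegree_zero] at hGd; omega
    have hdvd : G.map (Int.castRingHom (ZMod p)) ∣ toP p (f.cs p) := by
      rw [Fac.toP_cs f hpp.pos hE hO, hGH, Polynomial.map_mul]
      exact dvd_mul_right _ _
    have hmon : (G.map (Int.castRingHom (ZMod p)) *
        C (G.map (Int.castRingHom (ZMod p))).leadingCoeff⁻¹).Monic :=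
      monic_mul_leadingCoeff_inv hGne
    refine noFac_spec hG0 hno _ hmon ?_ ?_
    · rw [natDegree_mul_leadingCoeff_inv _ hGne, hGd]
    · have hu : IsUnit (C (G.map (Int.castRingHom (ZMod p))).leadingCoeff⁻¹) := by
        rw [Polynomial.isUnit_C]
        exact (inv_ne_zero (leadingCoeff_ne_zero.mpr hGne)).isUnit
      exact (hu.mul_right_dvd).mpr hdvd
  constructor
  · intro hu
    have := natDegree_eq_zero_of_isUnit hu
    omega
  · intro G H hGH
    have hG0 : G ≠ 0 := by rintro rfl; rw [zero_mul] at hGH; exact hne hGH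
    have hH0 : H ≠ 0 := by rintro rfl; rw [mul_zero] at hGH; exact hne hGH
    have hdeg : G.natDegree + H.natDegree = f.d := by
      rw [← natDegree_mul hG0 hH0, ← hGH, hd]
    rcases Nat.eq_zero_or_pos G.natDegree with h | h
    · left
      have h4 := eq_C_of_natDegree_eq_zero h
      rw [h4, Polynomial.isUnit_C]
      refine hprim _ ?_
      rw [← h4]; exact ⟨H, hGH⟩
    rcases Nat.eq_zero_or_pos H.natDegree with h' | h'
    · right
      have h4 := eq_C_of_natDegree_eq_zero h'
      rw [h4, Polynomial.isUnit_C]
      refine hprim _ ?_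
      rw [← h4]; exact ⟨G, by rw [hGH, mul_comm]⟩
    exfalso
    rcases le_total G.natDegree H.natDegree with h5 | h5
    · exact key G H hGH h (by omega)
    · exact key H G (by rw [hGH, mul_comm]) h' (by omega)

end H27Cheb
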