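import Pool.Agent.H27Cheb.Transfer
import Pool.Agent.H27Cheb.Irr
import Pool.Agent.H27Cheb.Cert13

open Polynomial Filter Topology

namespace H27Cheb

theorem cert13_irr_check : (cert13.L.all fun f => f.ok && f.primCheck &&
    ([[2, 2], [3, 3, 2], [3, 3, 5, 3]].any fun ps => f.facCheck ps)) = true := by
  decide +kernel

theorem cert13_irr : ∀ f ∈ cert13.L, Irreducible f.poly := by
  intro f hf
  have hall := cert13_irr_check
  rw [List.all_eq_true] at hall
  have := hall f hf
  simp only [Bool.and_eq_true, List.any_eq_true] at this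
  obtain ⟨⟨h1, h2⟩, ps, hps, h3⟩ := this
  refine Fac.irreducible (ps := ps) ?_ h1 h3 h2
  intro p hp
  have : p = 2 ∨ p = 3 ∨ p = 5 := by
    simp only [List.mem_cons, List.not_mem_nil, or_false] at hps
    rcases hps with rfl | rfl | rfl <;> simp at hp <;> omega
  rcases this with rfl | rfl | rfl <;> norm_num

theorem lower13 (p : ℤ[X]) (hp : p ≠ 0) (n : ℕ) (hn : p.natDegree ≤ n) :
    (422309 / 1000000 : ℝ) ^ n ≤ supNorm01 p := by
  refine supNorm01_ge (by norm_num) (by norm_num) ?_ hp hn
  intro q hq M hM
  have := cert13.sound cert13_check1 cert13_check2 cert13_check3 cert13_irr q hq M hM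
  rw [show cert13.cn = 422309 from rfl, show cert13.cd = 1000000 from rfl] at this
  exact_mod_cast this

end H27Cheb
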