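import Pool.Agent.H27Cheb.Core

open Polynomial

namespace H27Cheb

variable {ι : Type*} [Fintype ι]

theorem Apoly_coeff (a : ℝ) (N : ℕ) (ρ : ℕ → ℝ) : (Apoly a N ρ).coeff N = a := by
  have hmonic : (∏ k ∈ Finset.range N, (X - C (ρ k))).Monic := monic_prod_X_sub_C _ _
  have hnd : (∏ k ∈ Finset.range N, (X - C (ρ k))).natDegree = N := by
    rw [natDegree_prod_of_monic _ _ (fun i _ => monic_X_sub_C _)]
    simp
  have h := hmonic.coeff_natDegree
  rw [hnd] at h
  rw [Apoly, coeff_C_mul, h, mul_one]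

theorem Apoly_natDegree_le (a : ℝ) (N : ℕ) (ρ : ℕ → ℝ) : (Apoly a N ρ).natDegree ≤ N := by
  have hnd : (∏ k ∈ Finset.range N, (X - C (ρ k))).natDegree = N := by
    rw [natDegree_prod_of_monic _ _ (fun i _ => monic_X_sub_C _)]
    simp
  refine (natDegree_C_mul_le _ _).trans hnd.le

theorem Apoly_eval (a : ℝ) (N : ℕ) (ρ : ℕ → ℝ) (x : ℝ) :
    (Apoly a N ρ).eval x = a * ∏ i ∈ Finset.range N, (x - ρ i) := by
  simp [Apoly, eval_mul, eval_prod]

theorem Bpoly_natDegree_le (F : ι → ℤ[X]) (m : ι → ℕ) :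
    (Bpoly F m).natDegree ≤ ∑ j, m j * (F j).natDegree := by
  unfold Bpoly
  refine (natDegree_prod_le _ _).trans (Finset.sum_le_sum fun j _ => ?_)
  refine natDegree_pow_le.trans ?_
  exact Nat.mul_le_mul le_rfl natDegree_map_le

theorem Bpoly_coeff_le (F : ι → ℤ[X]) (m : ι → ℕ) {N : ℕ}
    (hN : ∑ j, m j * (F j).natDegree ≤ N) :
    |(Bpoly F m).coeff N| ≤ ∏ j, |((F j).leadingCoeff : ℝ)| ^ m j := by
  have h1 := Bpoly_natDegree_le F m
  rcases lt_or_eq_of_le (h1.trans hN) with h | h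
  · rw [coeff_eq_zero_of_natDegree_lt h, abs_zero]
    exact Finset.prod_nonneg fun _ _ => pow_nonneg (abs_nonneg _) _
  · rw [← h]
    have h2 : (Bpoly F m).leadingCoeff = ∏ j, ((F j).leadingCoeff : ℝ) ^ m j := by
      unfold Bpoly
      rw [leadingCoeff_prod]
      refine Finset.prod_congr rfl fun j _ => ?_
      rw [leadingCoeff_pow, leadingCoeff_map_of_injective (algebraMap ℤ ℝ).injective_int]
      rfl
    rw [coeff_natDegree, h2, Finset.abs_prod]
    simp only [abs_pow, le_refl]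

theorem Bpoly_eval_abs (F : ι → ℤ[X]) (m : ι → ℕ) (x : ℝ) :
    |(Bpoly F m).eval x| = ∏ j, |((F j).map (algebraMap ℤ ℝ)).eval x| ^ m j := by
  unfold Bpoly
  rw [eval_prod, Finset.abs_prod]
  simp only [eval_pow, abs_pow]

/-- **Core theorem.**  A certificate `(ρ, y, a, F, m)` gives a lower bound for the supremum norm of
every nonzero integer polynomial on `[y 0, y N]`. -/
theorem core {F : ι → ℤ[X]} {m : ι → ℕ} {a κ : ℝ} {N : ℕ} {ρ y : ℕ → ℝ}
    (hN0 : N ≠ 0) (ha : 0 < a) (hκ : 0 ≤ κ)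
    (hirr : ∀ j, Irreducible (F j)) (hdeg : ∀ j, (F j).natDegree ≠ 0) (hm : ∀ j, m j ≠ 0)
    (hN : ∑ j, m j * (F j).natDegree ≤ N)
    (hb : ∏ j, |((F j).leadingCoeff : ℝ)| ^ m j < a)
    (horder : ∀ k < N, y k < ρ k ∧ ρ k < y (k + 1))
    (hdom : ∀ k ≤ N, ∏ j, |((F j).map (algebraMap ℤ ℝ)).eval (y k)| ^ m j <
      a * ∏ i ∈ Finset.range N, |y k - ρ i|)
    (hR : ∀ j, 1 ≤ (2 * a) ^ (F j).natDegree *
      ∏ i ∈ Finset.range N, |((F j).map (algebraMap ℤ ℝ)).eval (ρ i)|)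
    (hfin : 2 * (a + ∏ j, |((F j).leadingCoeff : ℝ)| ^ m j) * κ ^ N ≤ 1)
    (P : ℤ[X]) (hP : P ≠ 0) (M : ℝ)
    (hM : ∀ x : ℝ, y 0 ≤ x → x ≤ y N → |(P.map (algebraMap ℤ ℝ)).eval x| ≤ M) :
    κ ^ P.natDegree ≤ M := by
  set b : ℝ := ∏ j, |((F j).leadingCoeff : ℝ)| ^ m j with hbdef
  have hb0 : 0 ≤ b := Finset.prod_nonneg fun _ _ => pow_nonneg (abs_nonneg _) _
  have hmono : ∀ k < N, y k < y (k + 1) := fun k hk => (horder k hk).1.trans (horder k hk).2
  have hymono : ∀ i j, i ≤ j → j ≤ N → y i ≤ y j := by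
    intro i j hij
    induction j, hij using Nat.le_induction with
    | base => intro _; exact le_rfl
    | succ j hij ih => intro hj; exact (ih (by omega)).trans (hmono j (by omega)).le
  have hM0 : 0 ≤ M := (abs_nonneg _).trans (hM (y 0) le_rfl (hymono 0 N (Nat.zero_le _) le_rfl))
  set A := Apoly a N ρ with hA
  set B := Bpoly F m with hB
  have hAabs : ∀ x, |A.eval x| = a * ∏ i ∈ Finset.range N, |x - ρ i| := by
    intro x
    rw [hA, Apoly_eval, abs_mul, abs_of_pos ha, Finset.abs_prod]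
  have hdom' : ∀ k ≤ N, |B.eval (y k)| < |A.eval (y k)| := by
    intro k hk
    rw [hAabs, hB, Bpoly_eval_abs]
    exact hdom k hk
  have hsign : ∀ k < N, A.eval (y k) * A.eval (y (k + 1)) < 0 := by
    intro k hk
    rw [hA, Apoly_eval, Apoly_eval]
    have h1 : (a * ∏ i ∈ Finset.range N, (y k - ρ i)) *
        (a * ∏ i ∈ Finset.range N, (y (k + 1) - ρ i))
        = a ^ 2 * ∏ i ∈ Finset.range N, ((y k - ρ i) * (y (k + 1) - ρ i)) := by
      rw [Finset.prod_mul_distrib]; ring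
    rw [h1]
    have h2 : ∏ i ∈ Finset.range N, ((y k - ρ i) * (y (k + 1) - ρ i)) =
        ((y k - ρ k) * (y (k + 1) - ρ k)) *
          ∏ i ∈ (Finset.range N).erase k, ((y k - ρ i) * (y (k + 1) - ρ i)) :=
      (Finset.mul_prod_erase _ _ (Finset.mem_range.mpr hk)).symm
    rw [h2]
    have h3 : 0 < ∏ i ∈ (Finset.range N).erase k, ((y k - ρ i) * (y (k + 1) - ρ i)) := by
      refine Finset.prod_pos fun i hi => ?_
      have hik := Finset.ne_of_mem_erase hi
      have hiN := Finset.mem_range.mp (Finset.mem_of_mem_erase hi)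
      rcases lt_or_gt_of_ne hik with h | h
      · -- i < k
        have e1 : ρ i < y k := lt_of_lt_of_le (horder i hiN).2 (hymono (i + 1) k h hk.le)
        have e2 : ρ i < y (k + 1) := e1.trans (hmono k hk)
        exact mul_pos (sub_pos.mpr e1) (sub_pos.mpr e2)
      · have e1 : y (k + 1) < ρ i := lt_of_le_of_lt (hymono (k + 1) i h hiN.le) (horder i hiN).1
        have e2 : y k < ρ i := (hmono k hk).trans e1
        exact mul_pos_of_neg_of_neg (sub_neg.mpr e2) (sub_neg.mpr e1)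
    have h4 : (y k - ρ k) * (y (k + 1) - ρ k) < 0 :=
      mul_neg_of_neg_of_pos (sub_neg.mpr (horder k hk).1) (sub_pos.mpr (horder k hk).2)
    have h5 : 0 < a ^ 2 := by positivity
    nlinarith [mul_pos h5 h3]
  have hAco : A.coeff N = a := Apoly_coeff a N ρ
  have hBco : |B.coeff N| ≤ b := Bpoly_coeff_le F m hN
  have hlead : |B.coeff N| < A.coeff N := by rw [hAco]; exact lt_of_le_of_lt hBco hb
  set Pc := P.map (algebraMap ℤ ℂ) with hPc
  have hnd : Pc.natDegree = P.natDegree :=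
    natDegree_map_eq_of_injective (algebraMap ℤ ℂ).injective_int _
  have hMc : ∀ x : ℝ, y 0 ≤ x → x ≤ y N → ‖Pc.eval (x : ℂ)‖ ≤ M := by
    intro x h1 h2
    have e1 : Pc.eval (x : ℂ) = (((P.map (algebraMap ℤ ℝ)).eval x : ℝ) : ℂ) := by
      have : Pc = (P.map (algebraMap ℤ ℝ)).map (algebraMap ℝ ℂ) := by
        rw [Polynomial.map_map]; congr 1
      rw [this, eval_map_algebraMap]
      exact (Polynomial.aeval_algebraMap_apply ℂ x _)
    rw [e1, Complex.norm_real, Real.norm_eq_abs]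
    exact hM x h1 h2
  have hmain := prod_phi_le (A := A) (B := B) Pc.roots (‖Pc.leadingCoeff‖ ^ N)
    ((A.coeff N + |B.coeff N|) ^ Pc.natDegree * M ^ N) (by positivity)
    (fun t ht => prod_roots_le ht (Apoly_natDegree_le a N ρ) ((Bpoly_natDegree_le F m).trans hN)
      hlead hmono hdom' hsign Pc hMc)
  have hge := lam_ge ha ρ hirr hdeg hm hN hR P hP
  unfold lam at hge
  have h1 : (1 / 2 : ℝ) ^ P.natDegree ≤ (a + b) ^ P.natDegree * M ^ N := by
    refine hge.trans (hmain.trans ?_)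
    rw [hnd, hAco]
    refine mul_le_mul_of_nonneg_right ?_ (pow_nonneg hM0 _)
    exact pow_le_pow_left₀ (by positivity) (by linarith) _
  have hab : 0 < 2 * (a + b) := by linarith
  have h2 : 1 ≤ (2 * (a + b)) ^ P.natDegree * M ^ N := by
    have h3 : (2 : ℝ) ^ P.natDegree * (1 / 2 : ℝ) ^ P.natDegree = 1 := by
      rw [← mul_pow]; norm_num
    calc (1 : ℝ) = (2 : ℝ) ^ P.natDegree * (1 / 2 : ℝ) ^ P.natDegree := h3.symm
      _ ≤ (2 : ℝ) ^ P.natDegree * ((a + b) ^ P.natDegree * M ^ N) :=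
          mul_le_mul_of_nonneg_left h1 (by positivity)
      _ = _ := by rw [mul_pow]; ring
  have h4 : (κ ^ P.natDegree) ^ N ≤ M ^ N := by
    have h5 : (2 * (a + b)) ^ P.natDegree * (κ ^ P.natDegree) ^ N ≤ 1 := by
      rw [← pow_mul, mul_comm P.natDegree N, pow_mul, ← mul_pow]
      exact pow_le_one₀ (by positivity) hfin
    have h6 : (2 * (a + b)) ^ P.natDegree * (κ ^ P.natDegree) ^ N ≤
        (2 * (a + b)) ^ P.natDegree * M ^ N := h5.trans h2
    exact le_of_mul_le_mul_left h6 (by positivity)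
  exact le_of_pow_le_pow_left₀ hN0 hM0 h4

end H27Cheb
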