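import Mathlib

/-!
# The integer Chebyshev constant of `[0,1]`

Definitions (`supNorm01`, `mZ`), the reduction from `[0,1]` to `[0,1/4]` via `y = x - x²`, and the
existence of the limit.
-/

open Polynomial Filter Topology

namespace H27Cheb

/-- the sup norm `‖p‖_{[0,1]}` of an integer polynomial -/
noncomputable def supNorm01 (p : ℤ[X]) : ℝ :=
  sSup ((fun x : ℝ => |(p.map (Int.castRingHom ℝ)).eval x|) '' Set.Icc 0 1)

/-- `m_n = inf ‖p‖_{[0,1]}^{1/n}` over nonzero integer polynomials of degree at most `n` -/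
noncomputable def mZ (n : ℕ) : ℝ :=
  sInf ((fun p : ℤ[X] => supNorm01 p ^ (1 / (n : ℝ))) '' {p | p ≠ 0 ∧ p.natDegree ≤ n})

theorem bddAbove_image (p : ℤ[X]) :
    BddAbove ((fun x : ℝ => |(p.map (Int.castRingHom ℝ)).eval x|) '' Set.Icc 0 1) :=
  (isCompact_Icc.image_of_continuousOn
    ((p.map (Int.castRingHom ℝ)).continuous.abs.continuousOn)).bddAbove

theorem le_supNorm01 (p : ℤ[X]) {x : ℝ} (h0 : 0 ≤ x) (h1 : x ≤ 1) :
    |(p.map (Int.castRingHom ℝ)).eval x| ≤ supNorm01 p :=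
  le_csSup (bddAbove_image p) ⟨x, ⟨h0, h1⟩, rfl⟩

theorem supNorm01_le {p : ℤ[X]} {M : ℝ}
    (h : ∀ x : ℝ, 0 ≤ x → x ≤ 1 → |(p.map (Int.castRingHom ℝ)).eval x| ≤ M) :
    supNorm01 p ≤ M := by
  refine csSup_le ⟨_, 0, ⟨le_rfl, zero_le_one⟩, rfl⟩ ?_
  rintro _ ⟨x, hx, rfl⟩
  exact h x hx.1 hx.2

theorem supNorm01_nonneg (p : ℤ[X]) : 0 ≤ supNorm01 p :=
  (abs_nonneg _).trans (le_supNorm01 p le_rfl zero_le_one)

/-- symmetric integer polynomials are polynomials in `X - X²` -/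
theorem exists_of_symm (n : ℕ) : ∀ s : ℤ[X], s.comp (1 - X) = s → s.natDegree ≤ 2 * n + 1 →
    ∃ q : ℤ[X], q.natDegree ≤ n ∧ q.comp (X - X ^ 2) = s := by
  induction n with
  | zero =>
    intro s hs hd
    -- degree at most one and symmetric: constant
    have h1 : s = C (s.coeff 1) * X + C (s.coeff 0) := eq_X_add_C_of_natDegree_le_one (by simpa using hd)
    have e0 : s.eval 1 = s.eval 0 := by
      have : (s.comp (1 - X)).eval 0 = s.eval 0 := by rw [hs]
      rw [eval_comp] at this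
      simpa using this
    have h3 : s.coeff 1 = 0 := by
      rw [h1] at e0
      simp only [eval_add, eval_mul, eval_C, eval_X] at e0
      linarith
    refine ⟨C (s.coeff 0), by simp, ?_⟩
    rw [C_comp]
    conv_rhs => rw [h1, h3]
    simp
  | succ n ih =>
    intro s hs hd
    have e0 : s.eval 1 = s.eval 0 := by
      have : (s.comp (1 - X)).eval 0 = s.eval 0 := by rw [hs]
      rw [eval_comp] at this
      simpa using this
    -- `X - X²` divides `s - C (s 0)`
    have h1 : (X : ℤ[X]) ∣ s - C (s.eval 0) := by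
      have : (X - C (0 : ℤ)) ∣ s - C (s.eval 0) := X_sub_C_dvd_sub_C_eval
      simpa using this
    obtain ⟨u, hu⟩ := h1
    have h2 : (X - C (1 : ℤ)) ∣ u := by
      rw [dvd_iff_isRoot, IsRoot.def]
      have h3 : (s - C (s.eval 0)).eval 1 = (X * u).eval 1 := by rw [hu]
      simp only [eval_sub, eval_C, eval_mul, eval_X, one_mul] at h3
      rw [← h3, e0, sub_self]
    obtain ⟨v, hv⟩ := h2
    have h4 : s - C (s.eval 0) = (X - X ^ 2) * (-v) := by
      rw [hu, hv]; simp only [map_one]; ring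
    have hXne : (X - X ^ 2 : ℤ[X]) ≠ 0 := by
      intro h
      have := congrArg (fun p => p.coeff 1) h
      simp [coeff_X_pow] at this
    have hcomp : (X - X ^ 2 : ℤ[X]).comp (1 - X) = X - X ^ 2 := by
      simp; ring
    have hvsymm : (-v).comp (1 - X) = -v := by
      have h5 : (s - C (s.eval 0)).comp (1 - X) = s - C (s.eval 0) := by
        rw [sub_comp, hs, C_comp]
      rw [h4, mul_comp, hcomp] at h5
      exact mul_left_cancel₀ hXne h5
    have hvdeg : (-v).natDegree ≤ 2 * n + 1 := by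
      by_cases hv0 : (-v) = 0
      · rw [hv0]; simp
      · have h6 : (s - C (s.eval 0)).natDegree ≤ 2 * (n + 1) + 1 :=
          (natDegree_sub_C_le _).trans hd
        rw [h4, natDegree_mul hXne hv0] at h6
        have h7 : (X - X ^ 2 : ℤ[X]).natDegree = 2 := by
          have : (X - X ^ 2 : ℤ[X]) = -(X ^ 2 - X) := by ring
          rw [this, natDegree_neg]
          compute_degree!
        rw [h7] at h6
        omega
    obtain ⟨q, hq, hqc⟩ := ih (-v) hvsymm hvdeg
    refine ⟨C (s.eval 0) + X * q, ?_, ?_⟩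
    · refine (natDegree_add_le _ _).trans (max_le (by simp) ?_)
      refine natDegree_mul_le.trans ?_
      rw [natDegree_X]; omega
    · rw [add_comp, C_comp, mul_comp, X_comp, hqc, ← h4]
      ring
where
  natDegree_sub_C_le {p : ℤ[X]} (a : ℤ) : (p - C a).natDegree ≤ p.natDegree := by
    refine (natDegree_sub_le _ _).trans ?_
    simp

/-- the norm `p(x) p(1-x)` as a polynomial in `x - x²` -/
theorem exists_norm_poly {p : ℤ[X]} (hp : p ≠ 0) :
    ∃ q : ℤ[X], q ≠ 0 ∧ q.natDegree ≤ p.natDegree ∧ ∀ x : ℝ,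
      (q.map (Int.castRingHom ℝ)).eval (x - x ^ 2) =
        (p.map (Int.castRingHom ℝ)).eval x * (p.map (Int.castRingHom ℝ)).eval (1 - x) := by
  have h1 : (p * p.comp (1 - X)).comp (1 - X) = p * p.comp (1 - X) := by
    rw [mul_comp, comp_assoc]
    have : (1 - X : ℤ[X]).comp (1 - X) = X := by simp
    rw [this, comp_X, mul_comm]
  have hdeg1 : (1 - X : ℤ[X]).natDegree = 1 := by
    have : (1 - X : ℤ[X]) = -(X - C 1) := by simp
    rw [this, natDegree_neg, natDegree_X_sub_C]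
  have h2 : (p * p.comp (1 - X)).natDegree ≤ 2 * p.natDegree + 1 := by
    refine natDegree_mul_le.trans ?_
    rw [natDegree_comp, hdeg1]
    omega
  obtain ⟨q, hq, hqc⟩ := exists_of_symm p.natDegree _ h1 h2
  refine ⟨q, ?_, hq, ?_⟩
  · rintro rfl
    rw [zero_comp] at hqc
    rcases mul_eq_zero.mp hqc.symm with h | h
    · exact hp h
    · apply hp
      have : (p.comp (1 - X)).comp (1 - X) = p := by
        rw [comp_assoc]
        have : (1 - X : ℤ[X]).comp (1 - X) = X := by simp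
        rw [this, comp_X]
      rw [← this, h, zero_comp]
  · intro x
    have h3 := congrArg (fun r : ℤ[X] => (r.map (Int.castRingHom ℝ)).eval x) hqc
    simp only [Polynomial.map_mul, Polynomial.map_comp, eval_mul, eval_comp] at h3
    simpa using h3

/-- lower bound on `[0,1]` from a lower bound on `[0,1/4]` -/
theorem supNorm01_ge {c : ℝ} (hc0 : 0 < c) (hc1 : c ≤ 1)
    (h : ∀ q : ℤ[X], q ≠ 0 → ∀ M : ℝ,
      (∀ y : ℝ, 0 ≤ y → y ≤ 1 / 4 → |(q.map (Int.castRingHom ℝ)).eval y| ≤ M) →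
      (c ^ 2) ^ q.natDegree ≤ M)
    {p : ℤ[X]} (hp : p ≠ 0) {n : ℕ} (hn : p.natDegree ≤ n) :
    c ^ n ≤ supNorm01 p := by
  obtain ⟨q, hq0, hqd, hq⟩ := exists_norm_poly hp
  have h1 := h q hq0 (supNorm01 p ^ 2) (by
    intro y hy0 hy1
    -- solve `x - x² = y`
    set x : ℝ := (1 - Real.sqrt (1 - 4 * y)) / 2 with hx
    have hs : Real.sqrt (1 - 4 * y) ^ 2 = 1 - 4 * y := Real.sq_sqrt (by linarith)
    have hs0 : 0 ≤ Real.sqrt (1 - 4 * y) := Real.sqrt_nonneg _
    have hs1 : Real.sqrt (1 - 4 * y) ≤ 1 := by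
      calc Real.sqrt (1 - 4 * y) ≤ Real.sqrt 1 := Real.sqrt_le_sqrt (by linarith)
        _ = 1 := Real.sqrt_one
    have hxy : x - x ^ 2 = y := by rw [hx]; nlinarith
    rw [← hxy, hq, abs_mul, sq]
    refine mul_le_mul (le_supNorm01 p ?_ ?_) (le_supNorm01 p ?_ ?_) (abs_nonneg _)
      (supNorm01_nonneg p)
    all_goals rw [hx]
    all_goals linarith)
  have h2 : (c ^ n) ^ 2 ≤ supNorm01 p ^ 2 := by
    refine le_trans ?_ h1
    rw [← pow_mul, ← pow_mul, mul_comm n 2]
    exact pow_le_pow_of_le_one hc0.le hc1 (by omega)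
  exact le_of_sq_le_sq' (pow_nonneg hc0.le n) (supNorm01_nonneg p) h2
where
  le_of_sq_le_sq' {a b : ℝ} (_ : 0 ≤ a) (hb : 0 ≤ b) (h : a ^ 2 ≤ b ^ 2) : a ≤ b := by
    exact le_of_pow_le_pow_left₀ two_ne_zero hb h

/-! ## The limit -/

theorem one_mem (n : ℕ) : supNorm01 1 ^ (1 / (n : ℝ)) ∈
    ((fun p : ℤ[X] => supNorm01 p ^ (1 / (n : ℝ))) '' {p | p ≠ 0 ∧ p.natDegree ≤ n}) :=
  ⟨1, ⟨one_ne_zero, by simp⟩, rfl⟩

theorem bddBelow_mZ (n : ℕ) :
    BddBelow ((fun p : ℤ[X] => supNorm01 p ^ (1 / (n : ℝ))) '' {p | p ≠ 0 ∧ p.natDegree ≤ n}) := by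
  refine ⟨0, ?_⟩
  rintro _ ⟨p, -, rfl⟩
  exact Real.rpow_nonneg (supNorm01_nonneg p) _

theorem mZ_le {n : ℕ} {p : ℤ[X]} (hp : p ≠ 0) (hn : p.natDegree ≤ n) :
    mZ n ≤ supNorm01 p ^ (1 / (n : ℝ)) :=
  csInf_le (bddBelow_mZ n) ⟨p, ⟨hp, hn⟩, rfl⟩

theorem le_mZ {n : ℕ} {c : ℝ}
    (h : ∀ p : ℤ[X], p ≠ 0 → p.natDegree ≤ n → c ≤ supNorm01 p ^ (1 / (n : ℝ))) :
    c ≤ mZ n := by
  refine le_csInf ⟨_, one_mem n⟩ ?_
  rintro _ ⟨p, hp, rfl⟩
  exact h p hp.1 hp.2

/-- lower bound for all `m_n` -/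
theorem le_mZ_of_pow {c : ℝ} (hc : 0 ≤ c)
    (h : ∀ p : ℤ[X], p ≠ 0 → ∀ n, p.natDegree ≤ n → c ^ n ≤ supNorm01 p) {n : ℕ} (hn : 1 ≤ n) :
    c ≤ mZ n := by
  refine le_mZ fun p hp hd => ?_
  have h1 := h p hp n hd
  have hn' : (n : ℝ) ≠ 0 := by positivity
  calc c = (c ^ n) ^ (1 / (n : ℝ)) := by
        rw [← Real.rpow_natCast, ← Real.rpow_mul hc, mul_one_div_cancel hn', Real.rpow_one]
    _ ≤ supNorm01 p ^ (1 / (n : ℝ)) :=
        Real.rpow_le_rpow (pow_nonneg hc n) h1 (by positivity)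

theorem supNorm01_mul_le (p q : ℤ[X]) : supNorm01 (p * q) ≤ supNorm01 p * supNorm01 q := by
  refine supNorm01_le fun x h0 h1 => ?_
  rw [Polynomial.map_mul, eval_mul, abs_mul]
  exact mul_le_mul (le_supNorm01 p h0 h1) (le_supNorm01 q h0 h1) (abs_nonneg _)
    (supNorm01_nonneg p)

/-- the limit `t_ℤ([0,1])` exists and is a lower bound for all `m_n` -/
theorem exists_tendsto_mZ {c : ℝ} (hc : 0 < c) (h : ∀ n ≥ 1, c ≤ mZ n) :
    ∃ t : ℝ, Tendsto mZ atTop (𝓝 t) ∧ c ≤ t ∧ ∀ n ≥ 1, t ≤ mZ n := by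
  -- `u n = n * log m_n`
  set u : ℕ → ℝ := fun n => n * Real.log (mZ n) with hu
  have hpos : ∀ n ≥ 1, 0 < mZ n := fun n hn => lt_of_lt_of_le hc (h n hn)
  have hpow : ∀ n ≥ 1, ∀ ε > 0, ∃ p : ℤ[X], p ≠ 0 ∧ p.natDegree ≤ n ∧
      Real.log (supNorm01 p) < u n + ε := by
    intro n hn ε hε
    have hn' : (0 : ℝ) < n := by exact_mod_cast hn
    have h1 : mZ n < mZ n * Real.exp (ε / n) := by
      have : 1 < Real.exp (ε / n) := Real.one_lt_exp_iff.mpr (by positivity)
      nlinarith [hpos n hn]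
    obtain ⟨_, ⟨p, hp, rfl⟩, hlt⟩ := exists_lt_of_csInf_lt (s := ((fun p : ℤ[X] =>
      supNorm01 p ^ (1 / (n : ℝ))) '' {p | p ≠ 0 ∧ p.natDegree ≤ n})) ⟨_, one_mem n⟩ h1
    refine ⟨p, hp.1, hp.2, ?_⟩
    have hge : mZ n ≤ supNorm01 p ^ (1 / (n : ℝ)) := mZ_le hp.1 hp.2
    have hppos : 0 < supNorm01 p := by
      rcases (supNorm01_nonneg p).lt_or_eq with h2 | h2
      · exact h2
      · exfalso
        rw [← h2, Real.zero_rpow (by positivity)] at hge
        linarith [hpos n hn]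
    have h3 : Real.log (supNorm01 p ^ (1 / (n : ℝ))) < Real.log (mZ n * Real.exp (ε / n)) :=
      Real.log_lt_log (lt_of_lt_of_le (hpos n hn) hge) hlt
    rw [Real.log_rpow hppos, Real.log_mul (hpos n hn).ne' (Real.exp_pos _).ne', Real.log_exp] at h3
    have h4 : (n : ℝ) * (1 / n * Real.log (supNorm01 p)) < n * (Real.log (mZ n) + ε / n) :=
      mul_lt_mul_of_pos_left h3 hn'
    have e1 : (n : ℝ) * (1 / n * Real.log (supNorm01 p)) = Real.log (supNorm01 p) := by
      field_simp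
    have e2 : (n : ℝ) * (Real.log (mZ n) + ε / n) = u n + ε := by
      rw [hu]; field_simp
    rw [e1, e2] at h4
    exact h4
  have hle : ∀ n ≥ 1, ∀ p : ℤ[X], p ≠ 0 → p.natDegree ≤ n → u n ≤ Real.log (supNorm01 p) := by
    intro n hn p hp hd
    have hn' : (0 : ℝ) < n := by exact_mod_cast hn
    have hge : mZ n ≤ supNorm01 p ^ (1 / (n : ℝ)) := mZ_le hp hd
    have hppos : 0 < supNorm01 p := by
      rcases (supNorm01_nonneg p).lt_or_eq with h2 | h2
      · exact h2
      · exfalso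
        rw [← h2, Real.zero_rpow (by positivity)] at hge
        linarith [hpos n hn]
    have h3 : Real.log (mZ n) ≤ Real.log (supNorm01 p ^ (1 / (n : ℝ))) :=
      Real.log_le_log (hpos n hn) hge
    rw [Real.log_rpow hppos] at h3
    have h4 := mul_le_mul_of_nonneg_left h3 hn'.le
    have e1 : (n : ℝ) * (1 / n * Real.log (supNorm01 p)) = Real.log (supNorm01 p) := by
      field_simp
    rw [e1] at h4
    exact h4
  have hsub : Subadditive u := by
    intro a b
    rcases Nat.eq_zero_or_pos a with ha | ha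
    · subst ha; simp [hu]
    rcases Nat.eq_zero_or_pos b with hb | hb
    · subst hb; simp [hu]
    refine le_of_forall_pos_le_add fun ε hε => ?_
    obtain ⟨p, hp, hpd, hpl⟩ := hpow a ha (ε / 2) (by positivity)
    obtain ⟨q, hq, hqd, hql⟩ := hpow b hb (ε / 2) (by positivity)
    have h1 := hle (a + b) (by omega) (p * q) (mul_ne_zero hp hq)
      (natDegree_mul_le.trans (add_le_add hpd hqd))
    have hp0 : 0 < supNorm01 p := by
      rcases (supNorm01_nonneg p).lt_or_eq with h2 | h2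
      · exact h2
      · exfalso
        have hge : mZ a ≤ supNorm01 p ^ (1 / (a : ℝ)) := mZ_le hp hpd
        rw [← h2, Real.zero_rpow (by positivity)] at hge
        linarith [hpos a ha]
    have hq0 : 0 < supNorm01 q := by
      rcases (supNorm01_nonneg q).lt_or_eq with h2 | h2
      · exact h2
      · exfalso
        have hge : mZ b ≤ supNorm01 q ^ (1 / (b : ℝ)) := mZ_le hq hqd
        rw [← h2, Real.zero_rpow (by positivity)] at hge
        linarith [hpos b hb]
    have hpq0 : 0 < supNorm01 (p * q) := by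
      rcases (supNorm01_nonneg (p * q)).lt_or_eq with h2 | h2
      · exact h2
      · exfalso
        have hge : mZ (a + b) ≤ supNorm01 (p * q) ^ (1 / ((a + b : ℕ) : ℝ)) :=
          mZ_le (mul_ne_zero hp hq) (natDegree_mul_le.trans (add_le_add hpd hqd))
        rw [← h2, Real.zero_rpow (by positivity)] at hge
        linarith [hpos (a + b) (by omega)]
    have h2 : Real.log (supNorm01 (p * q)) ≤ Real.log (supNorm01 p) + Real.log (supNorm01 q) := by
      rw [← Real.log_mul hp0.ne' hq0.ne']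
      exact Real.log_le_log hpq0 (supNorm01_mul_le p q)
    linarith
  have hbdd : BddBelow (Set.range fun n => u n / n) := by
    refine ⟨min 0 (Real.log c), ?_⟩
    rintro _ ⟨n, rfl⟩
    rcases Nat.eq_zero_or_pos n with hn | hn
    · subst hn; simp
    · have hn' : (0 : ℝ) < n := by exact_mod_cast hn
      have : u n / n = Real.log (mZ n) := by rw [hu]; field_simp
      simp only [this]
      exact (min_le_right _ _).trans (Real.log_le_log hc (h n hn))
  have hlim := hsub.tendsto_lim hbdd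
  have hev : ∀ᶠ n : ℕ in atTop, Real.exp (u n / n) = mZ n := by
    filter_upwards [eventually_ge_atTop 1] with n hn
    have hn' : (0 : ℝ) < n := by exact_mod_cast hn
    have : u n / n = Real.log (mZ n) := by rw [hu]; field_simp
    rw [this, Real.exp_log (hpos n hn)]
  have hT : Tendsto mZ atTop (𝓝 (Real.exp hsub.lim)) :=
    ((Real.continuous_exp.tendsto _).comp hlim).congr' hev
  refine ⟨Real.exp hsub.lim, hT, ?_, ?_⟩
  · exact ge_of_tendsto hT (by filter_upwards [eventually_ge_atTop 1] with n hn using h n hn)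
  · intro n hn
    have h1 := hsub.lim_le_div hbdd (n := n) (by omega)
    have hn' : (0 : ℝ) < n := by exact_mod_cast hn
    have h2 : u n / n = Real.log (mZ n) := by rw [hu]; field_simp
    rw [h2] at h1
    calc Real.exp hsub.lim ≤ Real.exp (Real.log (mZ n)) := Real.exp_le_exp.mpr h1
      _ = mZ n := Real.exp_log (hpos n hn)

end H27Cheb
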