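import Pool.Agent.H27Cheb.Upper
import Pool.Agent.H27Cheb.Transfer

/-!
# Executable checks for upper bounds
-/

open Polynomial Filter Topology

namespace H27Cheb

/-- helper for the derivative of a coefficient list -/
def dAux : ℕ → List ℕ → List ℕ
  | _, [] => []
  | k, c :: l => (k * c) :: dAux (k + 1) l

/-- derivative of a coefficient list -/
def dL : List ℕ → List ℕ
  | [] => []
  | _ :: l => dAux 1 l

theorem ofL_dAux : ∀ (l : List ℕ) (k : ℕ), ofL (dAux k l) = (k : ℤ[X]) * ofL l +
    X * derivative (ofL l) := by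
  intro l
  induction l with
  | nil => intro k; simp [dAux, ofL]
  | cons c l ih =>
    intro k
    rw [dAux, ofL, ih, ofL]
    simp only [derivative_add, derivative_C, derivative_mul, derivative_X]
    push_cast
    simp
    ring

theorem ofL_dL (l : List ℕ) : ofL (dL l) = derivative (ofL l) := by
  match l with
  | [] => simp [dL, ofL]
  | c :: l =>
    rw [dL, ofL_dAux, ofL]
    simp only [derivative_add, derivative_C, derivative_mul, derivative_X]
    simp

theorem length_dAux : ∀ (l : List ℕ) (k : ℕ), (dAux k l).length = l.length := by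
  intro l
  induction l with
  | nil => intro k; rfl
  | cons c l ih => intro k; simp [dAux, ih]

theorem length_dL (l : List ℕ) : (dL l).length = l.length - 1 := by
  match l with
  | [] => rfl
  | c :: l => simp [dL, length_dAux]

/-- a factor with precomputed derivative lists -/
structure UFac where
  /-- positive coefficients -/
  E : List ℕ
  /-- negative coefficients -/
  O : List ℕ
  /-- derivative of `E` -/
  dE : List ℕ
  /-- derivative of `O` -/
  dO : List ℕ
  /-- degree -/
  d : ℕ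
  /-- exponent -/
  m : ℕ

namespace UFac

/-- the polynomial -/
noncomputable def poly (f : UFac) : ℤ[X] := ofL f.E - ofL f.O

/-- the polynomial over `ℝ` -/
noncomputable def polyR (f : UFac) : ℝ[X] := f.poly.map (algebraMap ℤ ℝ)

/-- shape check -/
def ok (f : UFac) : Bool :=
  Nat.ble f.E.length (f.d + 1) && Nat.ble f.O.length (f.d + 1) && Nat.blt 0 f.d && Nat.blt 0 f.m &&
  decide (dL f.E = f.dE) && decide (dL f.O = f.dO) &&
  !(Nat.beq (f.E.getD f.d 0) (f.O.getD f.d 0))

/-- the sign of the value -/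
def neg (f : UFac) (D Y : ℕ) : Bool := Nat.blt (evH D Y f.d f.E) (evH D Y f.d f.O)

/-- value nonzero -/
def nz (f : UFac) (D Y : ℕ) : Bool := !(Nat.beq (evH D Y f.d f.E) (evH D Y f.d f.O))

/-- absolute value -/
def absF (f : UFac) (D Y : ℕ) : ℕ :=
  (evH D Y f.d f.E - evH D Y f.d f.O) + (evH D Y f.d f.O - evH D Y f.d f.E)

/-- absolute value of the derivative -/
def absD (f : UFac) (D Y : ℕ) : ℕ :=
  (evH D Y (f.d - 1) f.dE - evH D Y (f.d - 1) f.dO) +
    (evH D Y (f.d - 1) f.dO - evH D Y (f.d - 1) f.dE)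

/-- sign of the derivative -/
def negD (f : UFac) (D Y : ℕ) : Bool :=
  Nat.blt (evH D Y (f.d - 1) f.dE) (evH D Y (f.d - 1) f.dO)

/-- `± ⌊2^K m |F'|/|F|⌋` -/
def term (f : UFac) (D Y K : ℕ) : ℤ :=
  if (f.neg D Y == f.negD D Y) then Int.ofNat (f.m * f.absD D Y * 2 ^ K / f.absF D Y)
  else Int.negOfNat (f.m * f.absD D Y * 2 ^ K / f.absF D Y)

/-- signed value -/
def sv (f : UFac) (D Y : ℕ) : ℤ := (evH D Y f.d f.E : ℤ) - evH D Y f.d f.O

/-- signed derivative -/
def sd (f : UFac) (D Y : ℕ) : ℤ := (evH D Y (f.d - 1) f.dE : ℤ) - evH D Y (f.d - 1) f.dO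

theorem ok_spec {f : UFac} (h : f.ok = true) : f.E.length ≤ f.d + 1 ∧ f.O.length ≤ f.d + 1 ∧
    0 < f.d ∧ 0 < f.m ∧ dL f.E = f.dE ∧ dL f.O = f.dO ∧ f.E.getD f.d 0 ≠ f.O.getD f.d 0 := by
  unfold ok at h
  simp only [Bool.and_eq_true, Nat.ble_eq, Nat.blt_eq, decide_eq_true_eq, Bool.not_eq_true'] at h
  obtain ⟨⟨⟨⟨⟨⟨h1, h2⟩, h3⟩, h4⟩, h5⟩, h6⟩, h7⟩ := h
  exact ⟨h1, h2, h3, h4, h5, h6, fun h8 => by rw [h8, Nat.beq_refl] at h7; exact absurd h7 (by simp)⟩

theorem poly_ne_zero {f : UFac} (h : f.ok = true) : f.poly ≠ 0 := by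
  obtain ⟨-, -, -, -, -, -, h7⟩ := ok_spec h
  intro h0
  have h1 : f.poly.coeff f.d = 0 := by rw [h0, coeff_zero]
  rw [poly, coeff_sub, coeff_ofL, coeff_ofL] at h1
  apply h7
  have : (f.E.getD f.d 0 : ℤ) = f.O.getD f.d 0 := by linarith
  exact_mod_cast this

theorem natDegree_le {f : UFac} (h : f.ok = true) : f.poly.natDegree ≤ f.d := by
  obtain ⟨h1, h2, -⟩ := ok_spec h
  rw [natDegree_le_iff_coeff_eq_zero]
  intro k hk
  rw [poly, coeff_sub, coeff_ofL, coeff_ofL, List.getD_eq_default _ _ (by omega),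
    List.getD_eq_default _ _ (by omega), sub_self]

theorem polyR_ne_zero {f : UFac} (h : f.ok = true) : f.polyR ≠ 0 :=
  (Polynomial.map_ne_zero_iff (algebraMap ℤ ℝ).injective_int).mpr (poly_ne_zero h)

theorem sv_eq {f : UFac} (h : f.ok = true) (D Y : ℕ) (hD : D ≠ 0) :
    (f.sv D Y : ℝ) = (D : ℝ) ^ f.d * f.polyR.eval ((Y : ℝ) / D) := by
  obtain ⟨h1, h2, -⟩ := ok_spec h
  unfold sv polyR poly
  push_cast
  rw [evH_eq D Y hD f.E f.d h1, evH_eq D Y hD f.O f.d h2, Polynomial.map_sub, eval_sub]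
  ring

theorem sd_eq {f : UFac} (h : f.ok = true) (D Y : ℕ) (hD : D ≠ 0) :
    (f.sd D Y : ℝ) = (D : ℝ) ^ (f.d - 1) * f.polyR.derivative.eval ((Y : ℝ) / D) := by
  obtain ⟨h1, h2, h3, -, h5, h6, -⟩ := ok_spec h
  unfold sd polyR poly
  push_cast
  rw [← h5, ← h6, evH_eq D Y hD _ _ (by rw [length_dL]; omega),
    evH_eq D Y hD _ _ (by rw [length_dL]; omega), ofL_dL, ofL_dL, ← mul_sub, derivative_map,
    derivative_sub, Polynomial.map_sub, eval_sub]

theorem absF_cast (f : UFac) (D Y : ℕ) : (f.absF D Y : ℝ) = |(f.sv D Y : ℝ)| := by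
  unfold absF sv
  rw [natAbsDiff]; push_cast; rfl

theorem absD_cast (f : UFac) (D Y : ℕ) : (f.absD D Y : ℝ) = |(f.sd D Y : ℝ)| := by
  unfold absD sd
  rw [natAbsDiff]; push_cast; rfl

theorem nz_spec {f : UFac} {D Y : ℕ} (h : f.nz D Y = true) : f.sv D Y ≠ 0 := by
  unfold nz at h
  simp only [Bool.not_eq_true'] at h
  intro h0
  unfold sv at h0
  have : evH D Y f.d f.E = evH D Y f.d f.O := by
    have h1 : (evH D Y f.d f.E : ℤ) = evH D Y f.d f.O := by linarith
    exact_mod_cast h1
  rw [this, Nat.beq_refl] at h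
  exact absurd h (by simp)

theorem neg_iff (f : UFac) (D Y : ℕ) : f.neg D Y = true ↔ f.sv D Y < 0 := by
  unfold neg sv
  rw [Nat.blt_eq]
  constructor
  · intro h
    have : (evH D Y f.d f.E : ℤ) < evH D Y f.d f.O := by exact_mod_cast h
    linarith
  · intro h
    have : (evH D Y f.d f.E : ℤ) < evH D Y f.d f.O := by linarith
    exact_mod_cast this

theorem negD_iff (f : UFac) (D Y : ℕ) : f.negD D Y = true ↔ f.sd D Y < 0 := by
  unfold negD sd
  rw [Nat.blt_eq]
  constructor
  · intro h
    have : (evH D Y (f.d - 1) f.dE : ℤ) < evH D Y (f.d - 1) f.dO := by exact_mod_cast h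
    linarith
  · intro h
    have : (evH D Y (f.d - 1) f.dE : ℤ) < evH D Y (f.d - 1) f.dO := by linarith
    exact_mod_cast this

/-- the fixed-point approximation of the logarithmic derivative -/
theorem term_spec {f : UFac} {D Y : ℕ} (K : ℕ) (h : f.sv D Y ≠ 0) :
    |(f.m : ℝ) * ((f.sd D Y : ℝ) / f.sv D Y) * 2 ^ K - (f.term D Y K : ℝ)| ≤ 1 := by
  have hq : (0 : ℝ) < f.absF D Y := by
    rw [absF_cast]; exact abs_pos.mpr (by exact_mod_cast h)
  have hqN : 0 < f.absF D Y := by exact_mod_cast hq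
  set P := f.m * f.absD D Y * 2 ^ K / f.absF D Y with hP
  have hfl1 : (P : ℝ) ≤ (f.m * f.absD D Y * 2 ^ K : ℝ) / f.absF D Y := by
    rw [hP]
    have := @Nat.cast_div_le ℝ _ _ _ (f.m * f.absD D Y * 2 ^ K) (f.absF D Y)
    push_cast at this
    exact this
  have hfl2 : (f.m * f.absD D Y * 2 ^ K : ℝ) / f.absF D Y ≤ P + 1 := by
    rw [div_le_iff₀ hq]
    have h1 : f.m * f.absD D Y * 2 ^ K < (P + 1) * f.absF D Y := by
      rw [hP]
      have := Nat.lt_div_mul_add hqN (a := f.m * f.absD D Y * 2 ^ K)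
      rw [add_mul, one_mul]
      exact this
    have h2 : ((f.m * f.absD D Y * 2 ^ K : ℕ) : ℝ) ≤ (((P + 1) * f.absF D Y : ℕ) : ℝ) := by
      exact_mod_cast h1.le
    push_cast at h2
    exact h2
  have hval : |(f.m : ℝ) * ((f.sd D Y : ℝ) / f.sv D Y) * 2 ^ K| =
      (f.m * f.absD D Y * 2 ^ K : ℝ) / f.absF D Y := by
    rw [abs_mul, abs_mul, abs_div, ← absF_cast, ← absD_cast, abs_of_nonneg (by positivity),
      abs_of_nonneg (by positivity : (0 : ℝ) ≤ 2 ^ K)]
    ring
  have hsv : (f.sv D Y : ℝ) ≠ 0 := by exact_mod_cast h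
  by_cases hs : (f.neg D Y == f.negD D Y) = true
  · have ht : (f.term D Y K : ℝ) = P := by
      unfold term; rw [if_pos hs, ← hP]; simp
    have hnn : 0 ≤ (f.m : ℝ) * ((f.sd D Y : ℝ) / f.sv D Y) * 2 ^ K := by
      have : 0 ≤ (f.sd D Y : ℝ) / f.sv D Y := by
        rw [beq_iff_eq] at hs
        by_cases hn : f.neg D Y = true
        · have h1 := (neg_iff f D Y).mp hn
          have h2 := (negD_iff f D Y).mp (hs ▸ hn)
          exact (div_pos_of_neg_of_neg (by exact_mod_cast h2) (by exact_mod_cast h1)).le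
        · have h1 : 0 ≤ f.sv D Y := by
            by_contra hc; push Not at hc; exact hn ((neg_iff f D Y).mpr hc)
          have h2 : 0 ≤ f.sd D Y := by
            by_contra hc; push Not at hc; exact hn (hs ▸ ((negD_iff f D Y).mpr hc))
          exact div_nonneg (by exact_mod_cast h2) (by exact_mod_cast h1)
      positivity
    rw [abs_of_nonneg hnn] at hval
    rw [ht, hval, abs_le]
    constructor <;> linarith
  · have ht : (f.term D Y K : ℝ) = -P := by
      unfold term; rw [if_neg hs, ← hP, Int.negOfNat_eq]; simp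
    have hnp : (f.m : ℝ) * ((f.sd D Y : ℝ) / f.sv D Y) * 2 ^ K ≤ 0 := by
      have : (f.sd D Y : ℝ) / f.sv D Y ≤ 0 := by
        rw [beq_iff_eq] at hs
        by_cases hn : f.neg D Y = true
        · have h1 := (neg_iff f D Y).mp hn
          have h2 : 0 ≤ f.sd D Y := by
            by_contra hc; push Not at hc
            exact hs (by rw [hn, (negD_iff f D Y).mpr hc])
          exact div_nonpos_of_nonneg_of_nonpos (by exact_mod_cast h2) (by exact_mod_cast h1.le)
        · have h1 : 0 ≤ f.sv D Y := by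
            by_contra hc; push Not at hc; exact hn ((neg_iff f D Y).mpr hc)
          have h2 : f.sd D Y ≤ 0 := by
            by_contra hc; push Not at hc
            have h3 : ¬ f.negD D Y = true := by
              intro h4; have := (negD_iff f D Y).mp h4; omega
            rw [Bool.not_eq_true] at hn h3
            exact hs (by rw [hn, h3])
          exact div_nonpos_of_nonpos_of_nonneg (by exact_mod_cast h2) (by exact_mod_cast h1)
      have h2 : 0 ≤ (f.m : ℝ) := by positivity
      have h3 : (0 : ℝ) ≤ 2 ^ K := by positivity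
      exact mul_nonpos_of_nonpos_of_nonneg (mul_nonpos_of_nonneg_of_nonpos h2 this) h3
    rw [abs_of_nonpos hnp] at hval
    rw [ht, abs_le]
    constructor <;> linarith

end UFac

/-! ## Certificates -/

/-- an upper bound certificate -/
structure UCert where
  /-- denominator -/
  D : ℕ
  /-- precision for slopes -/
  K : ℕ
  /-- slope tolerance `1 / xd` -/
  xd : ℕ
  /-- exponent of `X` -/
  a0 : ℕ
  /-- exponent of `4 X - 1` -/
  a1 : ℕ
  /-- the other factors -/
  L : List UFac
  /-- points -/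
  C : List ℕ
  /-- widths -/
  W : List ℕ
  /-- numerator of the bound -/
  cn : ℕ
  /-- denominator of the bound -/
  cd : ℕ

/-- `X` as a factor -/
def facX (a : ℕ) : UFac := ⟨[0, 1], [], [1], [], 1, a⟩

/-- `4 X - 1` as a factor -/
def facQ (a : ℕ) : UFac := ⟨[0, 4], [1], [4], [], 1, a⟩

namespace UCert

/-- all factors -/
def full (u : UCert) : List UFac := facX u.a0 :: facQ u.a1 :: u.L

end UCert

/-- `∏ |F_j(Y)|^{m_j}` -/
def uprod (D Y : ℕ) : List UFac → ℕ
  | [] => 1
  | f :: l => f.absF D Y ^ f.m * uprod D Y l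

/-- sum of slope terms -/
def usum (D Y K : ℕ) : List UFac → ℤ
  | [] => 0
  | f :: l => f.term D Y K + usum D Y K l

/-- total degree `∑ m_j d_j` -/
def udeg : List UFac → ℕ
  | [] => 0
  | f :: l => f.m * f.d + udeg l

/-- total degree of the squarefree part -/
def udeg1 : List UFac → ℕ
  | [] => 0
  | f :: l => f.d + udeg1 l

/-- parity of the number of negative values -/
def parity (D Y : ℕ) : List UFac → Bool
  | [] => false
  | f :: l => xor (f.neg D Y) (parity D Y l)

/-- alternation of the signs -/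
def altCheck (D : ℕ) (L : List UFac) : Bool → List ℕ → Bool
  | _, [] => true
  | b, y :: l => (parity D y L == b) && L.all (fun f => f.nz D y) && altCheck D L (!b) l

/-- spacing check -/
def spaceCheck : List ℕ → List ℕ → Bool
  | [_], [_] => true
  | y :: y' :: ys, w :: w' :: ws => Nat.blt y y' && Nat.ble y' (y + w) && Nat.ble y' (y + w') &&
      spaceCheck (y' :: ys) (w' :: ws)
  | _, _ => false

/-- the pointwise check -/
def pointCheck (D K xd n cn cd : ℕ) (L : List UFac) (y w : ℕ) : Bool :=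
  Nat.ble (xd * w * ((usum D y K L).natAbs + L.length)) (2 ^ K) &&
  Nat.ble (xd * cd ^ (2 * n) * uprod D y L) ((xd - 1) * (cn ^ (2 * n) * D ^ n))

/-- the pointwise check at all points -/
def pointsCheck (D K xd n cn cd : ℕ) (L : List UFac) : List ℕ → List ℕ → Bool
  | [], [] => true
  | y :: ys, w :: ws => pointCheck D K xd n cn cd L y w && pointsCheck D K xd n cn cd L ys ws
  | _, _ => false

theorem spaceCheck_spec : ∀ (ys ws : List ℕ), spaceCheck ys ws = true →
    ys.length = ws.length ∧ 0 < ys.length ∧ ∀ k, k + 1 < ys.length →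
      ys.getD k 0 < ys.getD (k + 1) 0 ∧ ys.getD (k + 1) 0 ≤ ys.getD k 0 + ws.getD k 0 ∧
      ys.getD (k + 1) 0 ≤ ys.getD k 0 + ws.getD (k + 1) 0 := by
  intro ys
  induction ys with
  | nil => intro ws h; simp [spaceCheck] at h
  | cons y ys ih =>
    intro ws h
    match ys, ws with
    | [], [] => simp [spaceCheck] at h
    | [], [w] => simp
    | [], w :: w' :: ws => simp [spaceCheck] at h
    | y' :: ys, [] => simp [spaceCheck] at h
    | y' :: ys, [w] => simp [spaceCheck] at h
    | y' :: ys, w :: w' :: ws =>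
      simp only [spaceCheck, Bool.and_eq_true, Nat.blt_eq, Nat.ble_eq] at h
      obtain ⟨⟨⟨h1, h2⟩, h3⟩, h4⟩ := h
      obtain ⟨h5, h6, h7⟩ := ih _ h4
      refine ⟨by simpa using h5, by simp, ?_⟩
      intro k hk
      rcases Nat.eq_zero_or_pos k with h | h
      · subst h; simpa using ⟨h1, h2, h3⟩
      · obtain ⟨k', rfl⟩ := Nat.exists_eq_succ_of_ne_zero h.ne'
        have := h7 k' (by simpa using hk)
        simpa using this

theorem pointsCheck_spec {D K xd n cn cd : ℕ} {L : List UFac} : ∀ (ys ws : List ℕ),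
    pointsCheck D K xd n cn cd L ys ws = true → ∀ k < ys.length,
      pointCheck D K xd n cn cd L (ys.getD k 0) (ws.getD k 0) = true := by
  intro ys
  induction ys with
  | nil => intro ws _ k hk; simp at hk
  | cons y ys ih =>
    intro ws h k hk
    match ws with
    | [] => simp [pointsCheck] at h
    | w :: ws =>
      simp only [pointsCheck, Bool.and_eq_true] at h
      rcases Nat.eq_zero_or_pos k with h0 | h0
      · subst h0; simpa using h.1
      · obtain ⟨k', rfl⟩ := Nat.exists_eq_succ_of_ne_zero h0.ne'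
        have := ih ws h.2 k' (by simpa using hk)
        simpa using this

theorem altCheck_spec {D : ℕ} {L : List UFac} : ∀ (ys : List ℕ) (b : Bool),
    altCheck D L b ys = true → (∀ k < ys.length, ∀ f ∈ L, f.nz D (ys.getD k 0) = true) ∧
      ∀ k, k + 1 < ys.length → parity D (ys.getD k 0) L ≠ parity D (ys.getD (k + 1) 0) L := by
  intro ys
  induction ys with
  | nil => intro b _; exact ⟨fun k hk => by simp at hk, fun k hk => by simp at hk⟩
  | cons y ys ih =>
    intro b h
    simp only [altCheck, Bool.and_eq_true, List.all_eq_true, beq_iff_eq] at h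
    obtain ⟨⟨h1, h2⟩, h3⟩ := h
    obtain ⟨h4, h5⟩ := ih _ h3
    constructor
    · intro k hk
      rcases Nat.eq_zero_or_pos k with h0 | h0
      · subst h0; simpa using h2
      · obtain ⟨k', rfl⟩ := Nat.exists_eq_succ_of_ne_zero h0.ne'
        have := h4 k' (by simpa using hk)
        simpa using this
    · intro k hk
      rcases Nat.eq_zero_or_pos k with h0 | h0
      · subst h0
        match ys with
        | [] => simp at hk
        | y' :: ys =>
          simp only [altCheck, Bool.and_eq_true, beq_iff_eq] at h3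
          have h6 := h3.1.1
          simp only [List.getD_cons_zero, List.getD_cons_succ, zero_add]
          rw [h1, h6]; simp
      · obtain ⟨k', rfl⟩ := Nat.exists_eq_succ_of_ne_zero h0.ne'
        have := h5 k' (by simpa using hk)
        simpa using this

/-- the product of the real polynomials -/
noncomputable def Gpoly : List UFac → ℝ[X]
  | [] => 1
  | f :: l => f.polyR * Gpoly l

theorem Gpoly_natDegree : ∀ L : List UFac, (∀ f ∈ L, f.ok = true) →
    (Gpoly L).natDegree ≤ udeg1 L := by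
  intro L
  induction L with
  | nil => intro _; simp [Gpoly, udeg1]
  | cons f l ih =>
    intro h
    rw [Gpoly, udeg1]
    refine natDegree_mul_le.trans (add_le_add ?_ (ih fun g hg => h g (List.mem_cons_of_mem _ hg)))
    exact natDegree_map_le.trans (UFac.natDegree_le (h f List.mem_cons_self))

theorem Gpoly_ne_zero : ∀ L : List UFac, (∀ f ∈ L, f.ok = true) → Gpoly L ≠ 0 := by
  intro L
  induction L with
  | nil => intro _; simp [Gpoly]
  | cons f l ih =>
    intro h
    exact mul_ne_zero (UFac.polyR_ne_zero (h f List.mem_cons_self))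
      (ih fun g hg => h g (List.mem_cons_of_mem _ hg))

theorem dvd_Gpoly : ∀ L : List UFac, ∀ f ∈ L, f.polyR ∣ Gpoly L := by
  intro L
  induction L with
  | nil => intro f hf; simp at hf
  | cons g l ih =>
    intro f hf
    rcases List.mem_cons.mp hf with h | h
    · rw [h]; exact dvd_mul_right _ _
    · exact Dvd.dvd.mul_left (ih f h) _

theorem Gpoly_eval_zero : ∀ L : List UFac, ∀ x, (Gpoly L).eval x = 0 →
    ∃ f ∈ L, f.polyR.eval x = 0 := by
  intro L
  induction L with
  | nil => intro x h; simp [Gpoly] at h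
  | cons g l ih =>
    intro x h
    rw [Gpoly, eval_mul] at h
    rcases mul_eq_zero.mp h with h1 | h1
    · exact ⟨g, List.mem_cons_self, h1⟩
    · obtain ⟨f, hf, hf0⟩ := ih x h1
      exact ⟨f, List.mem_cons_of_mem _ hf, hf0⟩

theorem parity_spec {D Y : ℕ} (hD : D ≠ 0) : ∀ L : List UFac, (∀ f ∈ L, f.ok = true) →
    (∀ f ∈ L, f.nz D Y = true) →
    0 < (if parity D Y L then -1 else 1 : ℝ) * (Gpoly L).eval ((Y : ℝ) / D) := by
  intro L
  induction L with
  | nil => intro _ _; simp [parity, Gpoly]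
  | cons f l ih =>
    intro h1 h2
    have hf := h1 f List.mem_cons_self
    have hnz := UFac.nz_spec (h2 f List.mem_cons_self)
    have ih' := ih (fun g hg => h1 g (List.mem_cons_of_mem _ hg))
      (fun g hg => h2 g (List.mem_cons_of_mem _ hg))
    have hD' : (0 : ℝ) < (D : ℝ) ^ f.d := by positivity
    have hsv := UFac.sv_eq hf D Y hD
    have hsign : 0 < (if f.neg D Y then -1 else 1 : ℝ) * f.polyR.eval ((Y : ℝ) / D) := by
      by_cases hn : f.neg D Y = true
      · rw [if_pos hn]
        have h3 : (f.sv D Y : ℝ) < 0 := by exact_mod_cast (UFac.neg_iff f D Y).mp hn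
        rw [hsv] at h3
        have h4 : f.polyR.eval ((Y : ℝ) / D) < 0 := by
          by_contra hc; push Not at hc
          have := mul_nonneg hD'.le hc
          linarith
        linarith
      · rw [if_neg hn]
        have h3 : 0 < f.sv D Y := by
          rcases lt_trichotomy (f.sv D Y) 0 with h | h | h
          · exact absurd ((UFac.neg_iff f D Y).mpr h) hn
          · exact absurd h hnz
          · exact h
        have h4 : (0 : ℝ) < f.sv D Y := by exact_mod_cast h3
        rw [hsv] at h4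
        have h5 := pos_of_mul_pos_of_pos_left' h4 hD'
        linarith
    rw [Gpoly, eval_mul, parity]
    have hxor : (if xor (f.neg D Y) (parity D Y l) then -1 else 1 : ℝ) =
        (if f.neg D Y then -1 else 1) * (if parity D Y l then -1 else 1) := by
      cases f.neg D Y <;> cases parity D Y l <;> simp
    rw [hxor]
    calc (0 : ℝ) < ((if f.neg D Y then -1 else 1 : ℝ) * f.polyR.eval ((Y : ℝ) / D)) *
          ((if parity D Y l then -1 else 1 : ℝ) * (Gpoly l).eval ((Y : ℝ) / D)) :=
          mul_pos hsign ih'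
      _ = _ := by ring
where
  pos_of_mul_pos_of_pos_left' {a b : ℝ} (h : 0 < a * b) (ha : 0 < a) : 0 < b :=
    (mul_pos_iff_of_pos_left ha).mp h

theorem uprod_eq {D Y : ℕ} (hD : D ≠ 0) : ∀ L : List UFac, (∀ f ∈ L, f.ok = true) →
    (uprod D Y L : ℝ) = (D : ℝ) ^ udeg L *
      ∏ j : Fin L.length, |(L.get j).polyR.eval ((Y : ℝ) / D)| ^ (L.get j).m := by
  intro L
  induction L with
  | nil => intro _; simp [uprod, udeg]
  | cons f l ih =>
    intro h
    have h1 := ih fun g hg => h g (List.mem_cons_of_mem _ hg)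
    have hf := h f List.mem_cons_self
    rw [uprod, udeg]
    push_cast
    rw [h1, UFac.absF_cast, UFac.sv_eq hf D Y hD]
    have h2 : ∏ j : Fin (l.length + 1), |((f :: l).get j).polyR.eval ((Y : ℝ) / D)| ^
        ((f :: l).get j).m = |f.polyR.eval ((Y : ℝ) / D)| ^ f.m *
        ∏ j : Fin l.length, |(l.get j).polyR.eval ((Y : ℝ) / D)| ^ (l.get j).m :=
      Fin.prod_univ_succ _
    refine Eq.trans ?_ (congrArg (fun t => (D : ℝ) ^ (f.m * f.d + udeg l) * t) h2.symm)
    rw [abs_mul, abs_of_nonneg (by positivity : (0 : ℝ) ≤ (D : ℝ) ^ f.d), mul_pow, ← pow_mul,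
      pow_add, mul_comm f.d]
    ring

theorem usum_spec {D Y : ℕ} (K : ℕ) (hD : D ≠ 0) : ∀ L : List UFac, (∀ f ∈ L, f.ok = true) →
    (∀ f ∈ L, f.nz D Y = true) →
    |(∑ j : Fin L.length, ((L.get j).m : ℝ) * ((L.get j).polyR.derivative.eval ((Y : ℝ) / D) /
      (L.get j).polyR.eval ((Y : ℝ) / D))) / D * 2 ^ K - (usum D Y K L : ℝ)| ≤ L.length := by
  intro L
  induction L with
  | nil => intro _ _; simp [usum]
  | cons f l ih =>
    intro h1 h2
    have hf := h1 f List.mem_cons_self
    have hnz := UFac.nz_spec (h2 f List.mem_cons_self)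
    have ih' := ih (fun g hg => h1 g (List.mem_cons_of_mem _ hg))
      (fun g hg => h2 g (List.mem_cons_of_mem _ hg))
    have ht := UFac.term_spec K hnz
    have hD' : (D : ℝ) ≠ 0 := by exact_mod_cast hD
    have hd : 0 < f.d := (UFac.ok_spec hf).2.2.1
    have hratio : (f.sd D Y : ℝ) / f.sv D Y =
        (f.polyR.derivative.eval ((Y : ℝ) / D) / f.polyR.eval ((Y : ℝ) / D)) / D := by
      rw [UFac.sv_eq hf D Y hD, UFac.sd_eq hf D Y hD]
      obtain ⟨e, he⟩ := Nat.exists_eq_succ_of_ne_zero hd.ne'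
      rw [he]
      simp only [Nat.succ_eq_add_one, Nat.add_sub_cancel]
      rw [pow_succ]
      have hDe : (D : ℝ) ^ e ≠ 0 := pow_ne_zero _ hD'
      rw [mul_assoc, mul_div_mul_left _ _ hDe, div_div, mul_comm (D : ℝ)]
    have h3 : (∑ j : Fin (f :: l).length, (((f :: l).get j).m : ℝ) *
        (((f :: l).get j).polyR.derivative.eval ((Y : ℝ) / D) /
        ((f :: l).get j).polyR.eval ((Y : ℝ) / D))) =
        (f.m : ℝ) * (f.polyR.derivative.eval ((Y : ℝ) / D) / f.polyR.eval ((Y : ℝ) / D)) +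
        ∑ j : Fin l.length, ((l.get j).m : ℝ) * ((l.get j).polyR.derivative.eval ((Y : ℝ) / D) /
          (l.get j).polyR.eval ((Y : ℝ) / D)) :=
      Fin.sum_univ_succ (n := l.length) _
    rw [h3, usum, List.length_cons]
    push_cast
    rw [hratio] at ht
    calc |((f.m : ℝ) * (f.polyR.derivative.eval ((Y : ℝ) / D) / f.polyR.eval ((Y : ℝ) / D)) +
        ∑ j : Fin l.length, ((l.get j).m : ℝ) * ((l.get j).polyR.derivative.eval ((Y : ℝ) / D) /
          (l.get j).polyR.eval ((Y : ℝ) / D))) / D * 2 ^ K -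
          ((f.term D Y K : ℝ) + (usum D Y K l : ℝ))|
        = |((f.m : ℝ) * (f.polyR.derivative.eval ((Y : ℝ) / D) / f.polyR.eval ((Y : ℝ) / D) / D) *
          2 ^ K - (f.term D Y K : ℝ)) + ((∑ j : Fin l.length, ((l.get j).m : ℝ) *
          ((l.get j).polyR.derivative.eval ((Y : ℝ) / D) /
          (l.get j).polyR.eval ((Y : ℝ) / D))) / D * 2 ^ K - (usum D Y K l : ℝ))| := by
          congr 1; ring
      _ ≤ 1 + l.length := (abs_add_le _ _).trans (add_le_add ht ih')
      _ = _ := by ring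

namespace UCert

/-- everything except the pointwise bounds -/
def check1 (u : UCert) : Bool :=
  Nat.blt 0 u.D && Nat.blt 1 u.xd && Nat.blt 0 u.cd && Nat.blt 0 u.a0 && Nat.blt 0 u.a1 &&
  u.L.all UFac.ok && Nat.beq (udeg1 u.L + 1) u.C.length && spaceCheck u.C u.W &&
  Nat.blt 0 (u.C.getD 0 0) && Nat.ble (u.C.getD 0 0) (u.W.getD 0 0) &&
  Nat.blt (4 * u.C.getD (u.C.length - 1) 0) u.D &&
  Nat.ble u.D (4 * (u.C.getD (u.C.length - 1) 0 + u.W.getD (u.C.length - 1) 0))

/-- alternation -/
def check2 (u : UCert) : Bool := altCheck u.D u.L (parity u.D (u.C.getD 0 0) u.L) u.C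

/-- pointwise bounds -/
def check3 (u : UCert) : Bool :=
  pointsCheck u.D u.K u.xd (udeg u.full) u.cn u.cd u.full u.C u.W

end UCert

theorem facX_ok {a : ℕ} (h : 0 < a) : (facX a).ok = true := by
  simp [UFac.ok, facX, dL, dAux, h]
  rfl

theorem facQ_ok {a : ℕ} (h : 0 < a) : (facQ a).ok = true := by
  simp [UFac.ok, facQ, dL, dAux, h]
  rfl

theorem facX_polyR (a : ℕ) : (facX a).polyR = X := by
  simp [UFac.polyR, UFac.poly, facX, ofL]

theorem facQ_polyR (a : ℕ) : (facQ a).polyR = C 4 * X - C 1 := by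
  simp [UFac.polyR, UFac.poly, facQ, ofL]
  rw [show (C 4 : ℝ[X]) = 4 from rfl]
  ring

theorem facX_nz {a D Y : ℕ} (h : 0 < Y) : (facX a).nz D Y = true := by
  have h1 : evH D Y 1 [0, 1] ≠ evH D Y 1 [] := by
    simp only [evH]; simp; omega
  unfold UFac.nz facX
  simp only [Bool.not_eq_true']
  cases hb : Nat.beq (evH D Y 1 [0, 1]) (evH D Y 1 []) with
  | false => rfl
  | true => exact absurd (Nat.eq_of_beq_eq_true hb) h1

theorem facQ_nz {a D Y : ℕ} (h : 4 * Y < D) : (facQ a).nz D Y = true := by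
  have h1 : evH D Y 1 [0, 4] ≠ evH D Y 1 [1] := by
    simp only [evH]; simp; omega
  unfold UFac.nz facQ
  simp only [Bool.not_eq_true']
  cases hb : Nat.beq (evH D Y 1 [0, 4]) (evH D Y 1 [1]) with
  | false => rfl
  | true => exact absurd (Nat.eq_of_beq_eq_true hb) h1

theorem UCert.sound (u : UCert) (h1 : u.check1 = true) (h2 : u.check2 = true)
    (h3 : u.check3 = true) (x : ℝ) (hx0 : 0 ≤ x) (hx1 : x ≤ 1 / 4) :
    ∏ j : Fin u.full.length, |(u.full.get j).polyR.eval x| ^ (u.full.get j).m ≤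
      ((u.cn : ℝ) / u.cd) ^ (2 * udeg u.full) := by
  unfold check1 at h1
  simp only [Bool.and_eq_true, Nat.ble_eq, Nat.blt_eq, List.all_eq_true] at h1
  obtain ⟨⟨⟨⟨⟨⟨⟨⟨⟨⟨⟨hD, hxd⟩, hcd⟩, ha0⟩, ha1⟩, hok⟩, hlen⟩, hsp⟩, hC0⟩, hW0⟩, hCT⟩, hWT⟩ := h1
  replace hlen := Nat.eq_of_beq_eq_true hlen
  obtain ⟨hCW, -, hinc⟩ := spaceCheck_spec _ _ hsp
  obtain ⟨hnz, hpar⟩ := altCheck_spec _ _ h2
  have hpt := pointsCheck_spec _ _ h3
  have hD0 : u.D ≠ 0 := by omega
  have hD' : (0 : ℝ) < u.D := by exact_mod_cast hD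
  have hcd' : (0 : ℝ) < u.cd := by exact_mod_cast hcd
  have hokfull : ∀ f ∈ u.full, f.ok = true := by
    intro f hf
    unfold full at hf
    rcases List.mem_cons.mp hf with h | h
    · rw [h]; exact facX_ok ha0
    rcases List.mem_cons.mp h with h | h
    · rw [h]; exact facQ_ok ha1
    · exact hok f h
  set T := udeg1 u.L with hT
  have hlast : u.C.length - 1 = T := by omega
  rw [hlast] at hCT hWT
  let c : ℕ → ℝ := fun k => (u.C.getD k 0 : ℝ) / u.D
  let w : ℕ → ℝ := fun k => (u.W.getD k 0 : ℝ) / u.D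
  have hcpos : ∀ k ≤ T, 0 < u.C.getD k 0 ∧ 4 * u.C.getD k 0 < u.D := by
    intro k hk
    constructor
    · induction k with
      | zero => exact hC0
      | succ k ih =>
        have := (hinc k (by omega)).1
        have := ih (by omega)
        omega
    · have hmono : ∀ j, k ≤ j → j ≤ T → u.C.getD k 0 ≤ u.C.getD j 0 := by
        intro j hj
        induction j, hj using Nat.le_induction with
        | base => intro _; exact le_rfl
        | succ j hj ih =>
          intro hjT
          have := (hinc j (by omega)).1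
          have := ih (by omega)
          omega
      have := hmono T hk le_rfl
      omega
  refine upper_core (ι := Fin u.full.length) (P := fun j => (u.full.get j).polyR)
    (a := fun j => (u.full.get j).m) (G := Gpoly u.L) (T := T) (c := c) (w := w)
    (by positivity) (fun j => UFac.polyR_ne_zero (hokfull _ (List.get_mem _ _))) ?_ ?_ ?_ ?_
    (Gpoly_natDegree _ hok) (Gpoly_ne_zero _ hok) ?_ ?_ ?_ ?_ ?_ ?_ ?_ x hx0 hx1
  · -- hcase
    intro j
    have hmem : u.full.get j ∈ u.full := List.get_mem _ _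
    rcases List.mem_cons.mp hmem with h | h
    · right
      rw [h, facX_polyR]
      refine ⟨Splits.X, ?_⟩
      intro r hr
      rw [roots_X] at hr
      left; rw [Multiset.mem_singleton.mp hr]
    rcases List.mem_cons.mp h with h | h
    · right
      rw [h, facQ_polyR]
      have h4 : (Polynomial.C 4 * X - Polynomial.C 1 : ℝ[X]) =
          Polynomial.C 4 * (X - Polynomial.C (1 / 4)) := by
        rw [mul_sub, ← Polynomial.C_mul]; norm_num
      rw [h4]
      refine ⟨Splits.mul (Splits.C _) (Splits.X_sub_C _), ?_⟩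
      intro r hr
      rw [roots_C_mul _ (by norm_num), roots_X_sub_C] at hr
      right; rw [Multiset.mem_singleton.mp hr]
    · left; exact dvd_Gpoly _ _ h
  · -- hG
    intro z hz
    obtain ⟨f, hf, hf0⟩ := Gpoly_eval_zero _ _ hz
    have hmem : f ∈ u.full := List.mem_cons_of_mem _ (List.mem_cons_of_mem _ hf)
    obtain ⟨j, hj⟩ := List.get_of_mem hmem
    refine ⟨j, by rw [hj]; exact hf0, ?_⟩
    rw [hj]
    have := (UFac.ok_spec (hok f hf)).2.2.2.1
    omega
  · refine ⟨⟨0, by simp [full]⟩, ?_, ?_⟩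
    · change (facX u.a0).polyR.eval 0 = 0
      rw [facX_polyR]; simp
    · change (facX u.a0).m ≠ 0
      simp only [facX]; omega
  · refine ⟨⟨1, by simp [full]⟩, ?_, ?_⟩
    · change (facQ u.a1).polyR.eval (1 / 4) = 0
      rw [facQ_polyR]; simp
    · change (facQ u.a1).m ≠ 0
      simp only [facQ]; omega
  · intro k hk
    obtain ⟨h4, h5, h6⟩ := hinc k (by omega)
    refine ⟨div_lt_div_of_pos_right (by exact_mod_cast h4) hD', ?_, ?_⟩
    · rw [← add_div]; exact div_le_div_of_nonneg_right (by exact_mod_cast h5) hD'.le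
    · rw [← add_div]; exact div_le_div_of_nonneg_right (by exact_mod_cast h6) hD'.le
  · exact div_pos (by exact_mod_cast hC0) hD'
  · simp only [c]
    rw [div_lt_div_iff₀ hD' (by norm_num)]
    have : ((4 * u.C.getD T 0 : ℕ) : ℝ) < u.D := by exact_mod_cast hCT
    push_cast at this
    linarith
  · exact div_le_div_of_nonneg_right (by exact_mod_cast hW0) hD'.le
  · simp only [c, w]
    rw [← add_div, div_le_div_iff₀ (by norm_num) hD']
    have : (u.D : ℝ) ≤ ((4 * (u.C.getD T 0 + u.W.getD T 0) : ℕ) : ℝ) := by exact_mod_cast hWT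
    push_cast at this
    linarith
  · -- sign changes
    intro k hk
    have e1 := parity_spec (Y := u.C.getD k 0) hD0 u.L hok (hnz k (by omega))
    have e2 := parity_spec (Y := u.C.getD (k + 1) 0) hD0 u.L hok (hnz (k + 1) (by omega))
    have e3 := hpar k (by omega)
    simp only [c]
    cases hp1 : parity u.D (u.C.getD k 0) u.L <;> cases hp2 : parity u.D (u.C.getD (k + 1) 0) u.L
    · rw [hp1, hp2] at e3; exact absurd rfl e3
    · rw [hp1] at e1; rw [hp2] at e2
      simp only [Bool.false_eq_true, if_false, if_true, one_mul] at e1 e2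
      exact mul_neg_of_pos_of_neg e1 (by linarith)
    · rw [hp1] at e1; rw [hp2] at e2
      simp only [Bool.false_eq_true, if_false, if_true, one_mul] at e1 e2
      exact mul_neg_of_neg_of_pos (by linarith) e2
    · rw [hp1, hp2] at e3; exact absurd rfl e3
  · -- pointwise bounds
    intro k hk
    have h4 := hpt k (by omega)
    unfold pointCheck at h4
    simp only [Bool.and_eq_true, Nat.ble_eq] at h4
    obtain ⟨h5, h6⟩ := h4
    set Y := u.C.getD k 0 with hY
    set n := udeg u.full with hn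
    have hnzfull : ∀ f ∈ u.full, f.nz u.D Y = true := by
      intro f hf
      rcases List.mem_cons.mp hf with h | h
      · rw [h]
        exact facX_nz (hcpos k hk).1
      rcases List.mem_cons.mp h with h | h
      · rw [h]
        exact facQ_nz (hcpos k hk).2
      · exact hnz k (by omega) f h
    have h7 := usum_spec (Y := Y) u.K hD0 u.full hokfull hnzfull
    set S := ∑ j : Fin u.full.length, ((u.full.get j).m : ℝ) *
      ((u.full.get j).polyR.derivative.eval ((Y : ℝ) / u.D) /
      (u.full.get j).polyR.eval ((Y : ℝ) / u.D)) with hS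
    have hK : (0 : ℝ) < 2 ^ u.K := by positivity
    have hxd1 : (1 : ℝ) < u.xd := by exact_mod_cast hxd
    have hxd' : (0 : ℝ) < u.xd := by linarith
    -- slope bound
    have h8 : w k * |S| ≤ 1 / u.xd := by
      have h9 : |S / u.D * 2 ^ u.K| ≤ |(usum u.D Y u.K u.full : ℝ)| + u.full.length := by
        calc |S / u.D * 2 ^ u.K| = |(usum u.D Y u.K u.full : ℝ) +
              (S / u.D * 2 ^ u.K - (usum u.D Y u.K u.full : ℝ))| := by congr 1; ring
          _ ≤ _ := (abs_add_le _ _).trans (add_le_add le_rfl h7)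
      have h10 : ((u.xd * u.W.getD k 0 * ((usum u.D Y u.K u.full).natAbs + u.full.length) : ℕ) : ℝ)
          ≤ ((2 ^ u.K : ℕ) : ℝ) := by exact_mod_cast h5
      push_cast at h10
      have h11 : (((usum u.D Y u.K u.full).natAbs : ℕ) : ℝ) = |(usum u.D Y u.K u.full : ℝ)| := by
        rw [Nat.cast_natAbs]; push_cast; rfl
      rw [h11] at h10
      have h12 : |S / u.D * 2 ^ u.K| = |S| / u.D * 2 ^ u.K := by
        rw [abs_mul, abs_div, abs_of_pos hD', abs_of_pos hK]
      rw [h12] at h9
      have hWnn : (0 : ℝ) ≤ (u.W.getD k 0 : ℝ) := by positivity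
      have h13 : (u.xd : ℝ) * u.W.getD k 0 * (|S| / u.D * 2 ^ u.K) ≤ 2 ^ u.K :=
        (mul_le_mul_of_nonneg_left h9 (by positivity)).trans h10
      rw [le_div_iff₀ hxd']
      have h14 : (u.W.getD k 0 : ℝ) / u.D * |S| * u.xd * 2 ^ u.K ≤ 1 * 2 ^ u.K := by
        calc (u.W.getD k 0 : ℝ) / u.D * |S| * u.xd * 2 ^ u.K
            = (u.xd : ℝ) * u.W.getD k 0 * (|S| / u.D * 2 ^ u.K) := by ring
          _ ≤ 2 ^ u.K := h13
          _ = _ := by ring
      exact le_of_mul_le_mul_right h14 hK
    have h15 : Real.exp (w k * |S|) ≤ u.xd / (u.xd - 1) := by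
      have h16 : Real.exp (w k * |S|) ≤ Real.exp (1 / u.xd) := Real.exp_le_exp.mpr h8
      have h17 : 1 - 1 / (u.xd : ℝ) ≤ Real.exp (-(1 / u.xd)) := by
        have := Real.add_one_le_exp (-(1 / (u.xd : ℝ)))
        linarith
      have h18 : 0 < 1 - 1 / (u.xd : ℝ) := by
        rw [sub_pos, div_lt_one hxd']; exact hxd1
      calc Real.exp (w k * |S|) ≤ Real.exp (1 / u.xd) := h16
        _ = (Real.exp (-(1 / u.xd)))⁻¹ := by rw [Real.exp_neg, inv_inv]
        _ ≤ (1 - 1 / (u.xd : ℝ))⁻¹ := inv_anti₀ h18 h17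
        _ = u.xd / (u.xd - 1) := by field_simp
    -- product bound
    have h19 : ((u.xd * u.cd ^ (2 * n) * uprod u.D Y u.full : ℕ) : ℝ) ≤
        (((u.xd - 1) * (u.cn ^ (2 * n) * u.D ^ n) : ℕ) : ℝ) := by exact_mod_cast h6
    rw [Nat.cast_mul, Nat.cast_mul, Nat.cast_mul, Nat.cast_sub (by omega)] at h19
    push_cast at h19
    rw [uprod_eq hD0 _ hokfull, ← hn] at h19
    set Pr0 := ∏ j : Fin u.full.length, |(u.full.get j).polyR.eval ((Y : ℝ) / u.D)| ^
      (u.full.get j).m with hPr0
    have hPr00 : 0 ≤ Pr0 := Finset.prod_nonneg fun _ _ => by positivity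
    have hgoal : Pr0 * (u.xd / (u.xd - 1)) ≤ ((u.cn : ℝ) / u.cd) ^ (2 * n) := by
      have hx1' : (0 : ℝ) < u.xd - 1 := by linarith
      rw [div_pow, ← mul_div_assoc, div_le_div_iff₀ hx1' (by positivity)]
      have hDn : (0 : ℝ) < (u.D : ℝ) ^ n := by positivity
      have h20 : (Pr0 * u.xd * (u.cd : ℝ) ^ (2 * n)) * (u.D : ℝ) ^ n ≤
          ((u.cn : ℝ) ^ (2 * n) * (u.xd - 1)) * (u.D : ℝ) ^ n := by
        calc (Pr0 * u.xd * (u.cd : ℝ) ^ (2 * n)) * (u.D : ℝ) ^ n
            = u.xd * (u.cd : ℝ) ^ (2 * n) * ((u.D : ℝ) ^ n * Pr0) := by ring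
          _ ≤ _ := h19
          _ = _ := by ring
      exact le_of_mul_le_mul_right h20 hDn
    exact (mul_le_mul_of_nonneg_left h15 hPr00).trans hgoal

end H27Cheb
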