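import Pool.Agent.H27Cheb.UCertData

namespace H27Cheb

theorem ucert1_check3 : ucert1.check3 = true := by decide +kernel

theorem ucert1_deg : udeg ucert1.full = 30002 := by decide +kernel

end H27Cheb
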