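import Pool.Agent.H27Cheb.UCheck

open Polynomial Filter Topology

namespace H27Cheb

/-- the integer polynomial `∏ F_j^{m_j}` -/
noncomputable def Qpoly : List UFac → ℤ[X]
  | [] => 1
  | f :: l => f.poly ^ f.m * Qpoly l

theorem Qpoly_ne_zero : ∀ L : List UFac, (∀ f ∈ L, f.ok = true) → Qpoly L ≠ 0 := by
  intro L
  induction L with
  | nil => intro _; simp [Qpoly]
  | cons f l ih =>
    intro h
    exact mul_ne_zero (pow_ne_zero _ (UFac.poly_ne_zero (h f List.mem_cons_self)))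
      (ih fun g hg => h g (List.mem_cons_of_mem _ hg))

theorem Qpoly_natDegree : ∀ L : List UFac, (∀ f ∈ L, f.ok = true) →
    (Qpoly L).natDegree ≤ udeg L := by
  intro L
  induction L with
  | nil => intro _; simp [Qpoly, udeg]
  | cons f l ih =>
    intro h
    rw [Qpoly, udeg]
    refine natDegree_mul_le.trans (add_le_add ?_ (ih fun g hg => h g (List.mem_cons_of_mem _ hg)))
    exact natDegree_pow_le.trans
      (Nat.mul_le_mul_left _ (UFac.natDegree_le (h f List.mem_cons_self)))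

theorem Qpoly_eval (y : ℝ) : ∀ L : List UFac,
    |((Qpoly L).map (Int.castRingHom ℝ)).eval y| =
      ∏ j : Fin L.length, |(L.get j).polyR.eval y| ^ (L.get j).m := by
  intro L
  induction L with
  | nil => simp [Qpoly]
  | cons f l ih =>
    have h2 : ∏ j : Fin (l.length + 1), |((f :: l).get j).polyR.eval y| ^
        ((f :: l).get j).m = |f.polyR.eval y| ^ f.m *
        ∏ j : Fin l.length, |(l.get j).polyR.eval y| ^ (l.get j).m :=
      Fin.prod_univ_succ _
    refine Eq.trans ?_ h2.symm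
    rw [Qpoly, Polynomial.map_mul, Polynomial.map_pow, eval_mul, eval_pow, abs_mul, abs_pow, ih]
    rfl

theorem UCert.exists_poly (u : UCert) (h1 : u.check1 = true) (h2 : u.check2 = true)
    (h3 : u.check3 = true) : ∃ p : ℤ[X], p ≠ 0 ∧ p.natDegree ≤ 2 * udeg u.full ∧
      supNorm01 p ≤ ((u.cn : ℝ) / u.cd) ^ (2 * udeg u.full) := by
  have hs := u.sound h1 h2 h3
  have hok : ∀ f ∈ u.full, f.ok = true := by
    unfold check1 at h1
    simp only [Bool.and_eq_true, Nat.ble_eq, Nat.blt_eq, List.all_eq_true] at h1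
    obtain ⟨⟨⟨⟨⟨⟨⟨⟨⟨⟨⟨-, -⟩, -⟩, ha0⟩, ha1⟩, hok⟩, -⟩, -⟩, -⟩, -⟩, -⟩, -⟩ := h1
    intro f hf
    unfold full at hf
    rcases List.mem_cons.mp hf with h | h
    · rw [h]; exact facX_ok ha0
    rcases List.mem_cons.mp h with h | h
    · rw [h]; exact facQ_ok ha1
    · exact hok f h
  have hd2 : (X - X ^ 2 : ℤ[X]).natDegree = 2 := by
    rw [natDegree_sub_eq_right_of_natDegree_lt] <;> simp
  refine ⟨(Qpoly u.full).comp (X - X ^ 2), ?_, ?_, ?_⟩
  · intro h0
    rw [comp_eq_zero_iff] at h0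
    rcases h0 with h | ⟨-, h⟩
    · exact Qpoly_ne_zero _ hok h
    · rw [h, natDegree_C] at hd2; omega
  · rw [natDegree_comp, hd2, mul_comm]
    exact Nat.mul_le_mul_left _ (Qpoly_natDegree _ hok)
  · refine supNorm01_le fun x h0 h1 => ?_
    rw [Polynomial.map_comp, eval_comp]
    have e : ((X - X ^ 2 : ℤ[X]).map (Int.castRingHom ℝ)).eval x = x - x ^ 2 := by simp
    rw [e, Qpoly_eval]
    refine hs _ (by nlinarith) (by nlinarith [sq_nonneg (x - 1 / 2)])

theorem UCert.mZ_le (u : UCert) (h1 : u.check1 = true) (h2 : u.check2 = true)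
    (h3 : u.check3 = true) : mZ (2 * udeg u.full) ≤ (u.cn : ℝ) / u.cd := by
  obtain ⟨p, hp, hd, hn⟩ := u.exists_poly h1 h2 h3
  have hpos : 0 < 2 * udeg u.full := by
    have ha0 : 0 < u.a0 := by
      unfold check1 at h1
      simp only [Bool.and_eq_true, Nat.ble_eq, Nat.blt_eq, List.all_eq_true] at h1
      obtain ⟨⟨⟨⟨⟨⟨⟨⟨⟨⟨⟨-, -⟩, -⟩, ha0⟩, -⟩, -⟩, -⟩, -⟩, -⟩, -⟩, -⟩, -⟩ := h1
      exact ha0
    have : udeg u.full = u.a0 * 1 + udeg (facQ u.a1 :: u.L) := rfl
    omega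
  have hn0 : ((2 * udeg u.full : ℕ) : ℝ) ≠ 0 := by exact_mod_cast hpos.ne'
  refine (H27Cheb.mZ_le hp hd).trans ?_
  have hc : 0 ≤ (u.cn : ℝ) / u.cd := by positivity
  calc supNorm01 p ^ (1 / ((2 * udeg u.full : ℕ) : ℝ))
      ≤ (((u.cn : ℝ) / u.cd) ^ (2 * udeg u.full)) ^ (1 / ((2 * udeg u.full : ℕ) : ℝ)) :=
        Real.rpow_le_rpow (supNorm01_nonneg p) hn (by positivity)
    _ = (u.cn : ℝ) / u.cd := by
        rw [← Real.rpow_natCast, ← Real.rpow_mul hc, mul_one_div_cancel hn0, Real.rpow_one]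

end H27Cheb
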