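import Pool.Agent.H27Cheb.Check

/-!
# Upper bounds: products of real-rooted polynomials and tangent lines
-/

open Polynomial

namespace H27Cheb

/-- tangent-line inequality for a real-rooted polynomial on a root-free interval -/
theorem abs_eval_le_tangent {P : ℝ[X]} (hs : P.Splits) {y c : ℝ}
    (h : ∀ r ∈ P.roots, 0 < (y - r) * (c - r)) (hP : P ≠ 0) :
    |P.eval y| ≤ |P.eval c| * Real.exp ((y - c) * (P.derivative.eval c / P.eval c)) := by
  have hc : P.eval c ≠ 0 := by
    intro h0
    have := h c ((mem_roots hP).mpr h0)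
    simp at this
  rw [hs.eval_derivative_div_eval_of_ne_zero hc]
  have hev : ∀ x, |P.eval x| = |P.leadingCoeff| * (P.roots.map fun r => |x - r|).prod := by
    intro x
    conv_lhs => rw [hs.eq_prod_roots]
    rw [eval_mul, eval_C, abs_mul, eval_multiset_prod, Multiset.map_map]
    congr 1
    generalize P.roots = s
    induction s using Multiset.induction_on with
    | empty => simp
    | cons a s ih =>
      rw [Multiset.map_cons, Multiset.prod_cons, abs_mul, ih, Multiset.map_cons, Multiset.prod_cons]
      simp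
  rw [hev y, hev c, mul_assoc]
  refine mul_le_mul_of_nonneg_left ?_ (abs_nonneg _)
  revert h
  generalize P.roots = s
  intro h
  induction s using Multiset.induction_on with
  | empty => simp
  | cons a s ih =>
    have ha := h a (Multiset.mem_cons_self a s)
    have ih' := ih fun r hr => h r (Multiset.mem_cons_of_mem hr)
    simp only [Multiset.map_cons, Multiset.prod_cons, Multiset.sum_cons]
    rw [mul_add, Real.exp_add]
    have hca : c - a ≠ 0 := by rintro h0; rw [h0, mul_zero] at ha; exact lt_irrefl _ ha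
    have h1 : |y - a| ≤ |c - a| * Real.exp ((y - c) * (1 / (c - a))) := by
      have h2 : (y - a) / (c - a) = 1 + (y - c) * (1 / (c - a)) := by field_simp; ring
      have h3 : 0 < (y - a) / (c - a) := by
        rw [div_eq_mul_inv]
        have : (y - a) * (c - a)⁻¹ = ((y - a) * (c - a)) * ((c - a)⁻¹ * (c - a)⁻¹) := by
          field_simp
        rw [this]
        have hinv : (c - a)⁻¹ ≠ 0 := inv_ne_zero hca
        exact mul_pos ha (mul_self_pos.mpr hinv)
      have h4 : (y - a) / (c - a) ≤ Real.exp ((y - c) * (1 / (c - a))) := by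
        rw [h2, add_comm]; exact Real.add_one_le_exp _
      have h5 : |y - a| = |c - a| * ((y - a) / (c - a)) := by
        rw [← abs_of_pos h3, abs_div]
        field_simp
      rw [h5]
      exact mul_le_mul_of_nonneg_left h4 (abs_nonneg _)
    calc |y - a| * (s.map fun r => |y - r|).prod
        ≤ (|c - a| * Real.exp ((y - c) * (1 / (c - a)))) *
          ((s.map fun r => |c - r|).prod *
            Real.exp ((y - c) * (s.map fun z => 1 / (c - z)).sum)) := by
          refine mul_le_mul h1 ih' ?_ (by positivity)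
          refine Multiset.prod_nonneg ?_
          intro x hx
          obtain ⟨r, _, rfl⟩ := Multiset.mem_map.mp hx
          exact abs_nonneg _
      _ = _ := by ring

/-- **Upper bound criterion.**  `G` alternates at `c 0 < ... < c T`, `T ≥ deg G`; every factor
`P j` with `j ∈ J` divides `G`, the other factors have all roots outside `(0, 1/4)`. -/
theorem upper_core {ι : Type*} [Fintype ι] {P : ι → ℝ[X]} {a : ι → ℕ} {G : ℝ[X]} {T : ℕ}
    {c w : ℕ → ℝ} {K : ℝ} (hK : 0 ≤ K)
    (hP : ∀ j, P j ≠ 0)
    (hcase : ∀ j, P j ∣ G ∨ ((P j).Splits ∧ ∀ r ∈ (P j).roots, r ≤ 0 ∨ 1 / 4 ≤ r))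
    (hG : ∀ x, G.eval x = 0 → ∃ j, (P j).eval x = 0 ∧ a j ≠ 0)
    (h0 : ∃ j, (P j).eval 0 = 0 ∧ a j ≠ 0) (h1 : ∃ j, (P j).eval (1 / 4) = 0 ∧ a j ≠ 0)
    (hdeg : G.natDegree ≤ T) (hG0 : G ≠ 0)
    (hinc : ∀ k < T, c k < c (k + 1) ∧ c (k + 1) ≤ c k + w k ∧ c (k + 1) ≤ c k + w (k + 1))
    (hc0 : 0 < c 0) (hcT : c T < 1 / 4) (hw0 : c 0 ≤ w 0) (hwT : 1 / 4 ≤ c T + w T)
    (hsign : ∀ k < T, G.eval (c k) * G.eval (c (k + 1)) < 0)
    (hbd : ∀ k ≤ T, (∏ j, |(P j).eval (c k)| ^ a j) * Real.exp (w k *
      |∑ j, a j * ((P j).derivative.eval (c k) / (P j).eval (c k))|) ≤ K)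
    (x : ℝ) (hx0 : 0 ≤ x) (hx1 : x ≤ 1 / 4) : ∏ j, |(P j).eval x| ^ a j ≤ K := by
  have hzero : (∃ j, (P j).eval x = 0 ∧ a j ≠ 0) → ∏ j, |(P j).eval x| ^ a j ≤ K := by
    rintro ⟨j, hj, haj⟩
    rw [Finset.prod_eq_zero (Finset.mem_univ j) (by rw [hj, abs_zero, zero_pow haj])]
    exact hK
  rcases eq_or_lt_of_le hx0 with h | hx0
  · rw [← h] at hzero ⊢; exact hzero h0
  rcases eq_or_lt_of_le hx1 with h | hx1
  · rw [h] at hzero ⊢; exact hzero h1
  by_cases hGx : G.eval x = 0
  · exact hzero (hG x hGx)
  -- roots of `G`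
  have hmono : ∀ i j, i ≤ j → j ≤ T → c i ≤ c j := by
    intro i j hij
    induction j, hij using Nat.le_induction with
    | base => intro _; exact le_rfl
    | succ j hij ih => intro hj; exact (ih (by omega)).trans (hinc j (by omega)).1.le
  have hroot : ∀ k < T, ∃ η, c k < η ∧ η < c (k + 1) ∧ G.eval η = 0 := by
    intro k hk
    have hcont : ContinuousOn (fun x => G.eval x) (Set.Icc (c k) (c (k + 1))) :=
      G.continuous.continuousOn
    rcases mul_neg_iff.mp (hsign k hk) with ⟨h1, h2⟩ | ⟨h1, h2⟩
    · obtain ⟨z, hz, hz0⟩ := intermediate_value_Ioo' (hinc k hk).1.le hcont ⟨h2, h1⟩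
      exact ⟨z, hz.1, hz.2, hz0⟩
    · obtain ⟨z, hz, hz0⟩ := intermediate_value_Ioo (hinc k hk).1.le hcont ⟨h1, h2⟩
      exact ⟨z, hz.1, hz.2, hz0⟩
  choose! η hη1 hη2 hη0 using hroot
  have hinj : Set.InjOn η (Finset.range T) := by
    intro i hi j hj hij
    simp only [Finset.coe_range, Set.mem_Iio] at hi hj
    rcases lt_trichotomy i j with h | h | h
    · exfalso
      have h1 := hη2 i hi
      have h2 := hη1 j hj
      have h3 := hmono (i + 1) j h hj.le
      rw [hij] at h1; linarith
    · exact h
    · exfalso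
      have h1 := hη2 j hj
      have h2 := hη1 i hi
      have h3 := hmono (j + 1) i h hi.le
      rw [← hij] at h1; linarith
  have hfac := eq_prod_of_roots hdeg η hinj hη0
  have hGs : G.Splits := by
    rw [hfac]
    refine Splits.mul (Splits.C _) (Splits.prod fun k _ => ?_)
    exact Splits.X_sub_C _
  have hrootsG : ∀ r ∈ G.roots, ∃ k < T, r = η k := by
    intro r hr
    have h2 : G.eval r = 0 := (mem_roots hG0).mp hr
    rw [hfac, eval_mul, eval_C, eval_prod] at h2
    rcases mul_eq_zero.mp h2 with h3 | h3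
    · exfalso; apply hG0; rw [hfac, h3, map_zero, zero_mul]
    · obtain ⟨k, hk, hk0⟩ := Finset.prod_eq_zero_iff.mp h3
      rw [eval_sub, eval_X, eval_C] at hk0
      exact ⟨k, Finset.mem_range.mp hk, by linarith⟩
  -- the gap containing `x`
  have hxη : ∀ k < T, x ≠ η k := by
    intro k hk h; apply hGx; rw [h]; exact hη0 k hk
  obtain ⟨i, hiT, hilt, hige⟩ : ∃ i ≤ T, (∀ k < i, η k < x) ∧ (∀ k, i ≤ k → k < T → x < η k) := by
    have hηmono : ∀ k l, k < l → l < T → η k < η l := by
      intro k l hkl hl
      exact ((hη2 k (by omega)).trans_le (hmono (k + 1) l hkl hl.le)).trans (hη1 l hl)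
    by_cases hall : ∀ k < T, η k < x
    · exact ⟨T, le_rfl, hall, fun k h1 h2 => absurd h2 (by omega)⟩
    · push Not at hall
      classical
      have hex : ∃ k, k < T ∧ x ≤ η k := hall
      refine ⟨Nat.find hex, (Nat.find_spec hex).1.le, ?_, ?_⟩
      · intro k hk
        have := Nat.find_min hex hk
        push Not at this
        exact this (hk.trans (Nat.find_spec hex).1)
      · intro k hk hkT
        have h2 : x < η (Nat.find hex) :=
          lt_of_le_of_ne (Nat.find_spec hex).2 (hxη _ (Nat.find_spec hex).1)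
        rcases eq_or_lt_of_le hk with h | h
        · rw [← h]; exact h2
        · exact h2.trans (hηmono _ _ h hkT)
  have hsame : ∀ k < T, 0 < (x - η k) * (c i - η k) := by
    intro k hk
    rcases lt_or_ge k i with h | h
    · have h2 := hilt k h
      have h3 : η k < c i := (hη2 k hk).trans_le (hmono (k + 1) i h hiT)
      exact mul_pos (sub_pos.mpr h2) (sub_pos.mpr h3)
    · have h2 := hige k h hk
      have h3 : c i < η k := lt_of_le_of_lt (hmono i k h hk.le) (hη1 k hk)
      exact mul_pos_of_neg_of_neg (sub_neg.mpr h2) (sub_neg.mpr h3)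
  have hci0 : 0 < c i := hc0.trans_le (hmono 0 i (Nat.zero_le _) hiT)
  have hci1 : c i < 1 / 4 := (hmono i T hiT le_rfl).trans_lt hcT
  have hdist : |x - c i| ≤ w i := by
    rw [abs_le]
    constructor
    · -- lower
      rcases Nat.eq_zero_or_pos i with h | h
      · subst h; linarith
      · obtain ⟨i', rfl⟩ := Nat.exists_eq_succ_of_ne_zero h.ne'
        have h2 := hilt i' (Nat.lt_succ_self _)
        have h3 := hη1 i' (by omega)
        have h4 := (hinc i' (by omega)).2.2
        simp only [Nat.succ_eq_add_one] at *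
        linarith
    · rcases eq_or_lt_of_le hiT with h | h
      · rw [h]; linarith
      · have h2 := hige i le_rfl h
        have h3 := hη2 i h
        have h4 := (hinc i h).2.1
        linarith
  have htan : ∀ j, |(P j).eval x| ≤ |(P j).eval (c i)| *
      Real.exp ((x - c i) * ((P j).derivative.eval (c i) / (P j).eval (c i))) := by
    intro j
    rcases hcase j with h | ⟨hs, hr⟩
    · refine abs_eval_le_tangent (hGs.of_dvd hG0 h) ?_ (hP j)
      intro r hr
      have hrG : r ∈ G.roots := by
        rw [mem_roots hG0]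
        exact (((mem_roots (hP j)).mp hr)).dvd h
      obtain ⟨k, hk, rfl⟩ := hrootsG r hrG
      exact hsame k hk
    · refine abs_eval_le_tangent hs ?_ (hP j)
      intro r hr'
      rcases hr r hr' with h | h
      · exact mul_pos (by linarith) (by linarith)
      · exact mul_pos_of_neg_of_neg (by linarith) (by linarith)
  calc ∏ j, |(P j).eval x| ^ a j
      ≤ ∏ j, (|(P j).eval (c i)| *
        Real.exp ((x - c i) * ((P j).derivative.eval (c i) / (P j).eval (c i)))) ^ a j :=
        Finset.prod_le_prod (fun _ _ => by positivity)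
          fun j _ => pow_le_pow_left₀ (abs_nonneg _) (htan j) _
    _ = (∏ j, |(P j).eval (c i)| ^ a j) * Real.exp ((x - c i) *
        ∑ j, a j * ((P j).derivative.eval (c i) / (P j).eval (c i))) := by
        simp only [mul_pow]
        rw [Finset.prod_mul_distrib]
        congr 1
        rw [Finset.mul_sum, Real.exp_sum]
        refine Finset.prod_congr rfl fun j _ => ?_
        rw [← Real.exp_nat_mul]
        congr 1; ring
    _ ≤ (∏ j, |(P j).eval (c i)| ^ a j) * Real.exp (w i *
        |∑ j, a j * ((P j).derivative.eval (c i) / (P j).eval (c i))|) := by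
        refine mul_le_mul_of_nonneg_left (Real.exp_le_exp.mpr ?_)
          (Finset.prod_nonneg fun _ _ => by positivity)
        refine (le_abs_self _).trans ?_
        rw [abs_mul]
        exact mul_le_mul_of_nonneg_right hdist (abs_nonneg _)
    _ ≤ K := hbd i hiT

end H27Cheb
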